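import Mathlib

/-! Preliminaries on Hahn series for MP_740c6d_ag, piece D. -/

namespace Run7.h483.Hahn

open HahnSeries

variable {Γ : Type*} [AddCommGroup Γ] [LinearOrder Γ] [IsOrderedAddMonoid Γ]
variable {k : Type*} [Field k]

/-- A nonnegative-order evaluation has order `0` when the constant coefficient is nonzero. -/
theorem orderTop_heval {T : HahnSeries Γ k} (hT : 0 < T.orderTop) (f : PowerSeries k)
    (hf : PowerSeries.constantCoeff f ≠ 0) : (PowerSeries.heval T f).orderTop = 0 := by
  apply le_antisymm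
  · exact orderTop_le_of_coeff_ne_zero (by rwa [PowerSeries.coeff_heval_zero])
  · by_contra hcon
    rw [not_le] at hcon
    obtain ⟨g, hg⟩ := WithTop.ne_top_iff_exists.mp (ne_top_of_lt hcon)
    have h1 := coeff_orderTop_ne hg.symm
    apply h1
    rw [PowerSeries.coeff_heval]
    apply finsum_eq_zero_of_forall_eq_zero
    intro n
    rw [← hg] at hcon
    have hg0 : g < 0 := by exact_mod_cast hcon
    simp only [SummableFamily.coeff_apply, SummableFamily.smulFamily_toFun,
      HahnSeries.coeff_smul, smul_eq_mul]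
    apply mul_eq_zero_of_right
    rw [SummableFamily.powers_of_orderTop_pos hT]
    apply coeff_eq_zero_of_lt_orderTop
    calc (g : WithTop Γ) < 0 := by exact_mod_cast hg0
      _ ≤ n • T.orderTop := nsmul_nonneg hT.le n
      _ ≤ _ := orderTop_nsmul_le_orderTop_pow

/-- The power series solving `g = 1 + X g^4`. -/
noncomputable def gseq (k : Type*) [Field k] : ℕ → PowerSeries k
  | 0 => 1
  | (n+1) => 1 + PowerSeries.X * (gseq k n) ^ 4

theorem gseq_dvd (n : ℕ) : (PowerSeries.X : PowerSeries k) ^ (n+1) ∣ gseq k (n+1) - gseq k n := by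
  induction n with
  | zero => simp [gseq]
  | succ n ih =>
    have h1 : gseq k (n+1+1) - gseq k (n+1) =
        PowerSeries.X * ((gseq k (n+1)) ^ 4 - (gseq k n) ^ 4) := by
      simp only [gseq]
      ring
    rw [h1, pow_succ' _ (n+1)]
    exact mul_dvd_mul_left _ (dvd_trans ih (sub_dvd_pow_sub_pow _ _ 4))

/-- The limit. -/
noncomputable def gser (k : Type*) [Field k] : PowerSeries k :=
  PowerSeries.mk fun n => PowerSeries.coeff n (gseq k n)

theorem coeff_gseq (n m : ℕ) (h : n ≤ m) :
    PowerSeries.coeff n (gseq k m) = PowerSeries.coeff n (gseq k n) := by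
  induction m, h using Nat.le_induction with
  | base => rfl
  | succ m hm ih =>
    rw [← ih]
    have h1 := gseq_dvd (k := k) m
    rw [PowerSeries.X_pow_dvd_iff] at h1
    have := h1 n (by omega)
    rw [map_sub, sub_eq_zero] at this
    exact this

theorem gser_dvd (n : ℕ) : (PowerSeries.X : PowerSeries k) ^ (n+1) ∣ gser k - gseq k n := by
  rw [PowerSeries.X_pow_dvd_iff]
  intro m hm
  rw [map_sub, gser, PowerSeries.coeff_mk, coeff_gseq m n (by omega), sub_self]

theorem gser_eq : gser k = 1 + PowerSeries.X * (gser k) ^ 4 := by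
  rw [← sub_eq_zero]
  ext n
  have h1 : (PowerSeries.X : PowerSeries k) ^ (n+1) ∣
      gser k - (1 + PowerSeries.X * (gser k) ^ 4) := by
    have e : gser k - (1 + PowerSeries.X * (gser k) ^ 4) = (gser k - gseq k (n+1)) -
        PowerSeries.X * ((gser k) ^ 4 - (gseq k n) ^ 4) := by
      simp only [gseq]
      ring
    rw [e]
    apply dvd_sub
    · exact dvd_trans (pow_dvd_pow _ (by omega)) (gser_dvd (n+1))
    · exact Dvd.dvd.mul_left (dvd_trans (gser_dvd n) (sub_dvd_pow_sub_pow _ _ 4)) _
  rw [PowerSeries.X_pow_dvd_iff] at h1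
  rw [h1 n (by omega)]
  simp

theorem gser_const : PowerSeries.constantCoeff (gser k) = 1 := by
  rw [gser_eq]
  simp

/-! Derivations. -/

/-- `t^γ ↦ θ(γ) t^γ`. -/
noncomputable def der (θ : Γ →+ k) (f : HahnSeries Γ k) : HahnSeries Γ k where
  coeff γ := θ γ * f.coeff γ
  isPWO_support' := f.isPWO_support.mono (by
    intro g hg
    simp only [Function.mem_support, ne_eq, mul_eq_zero, not_or] at hg
    exact hg.2)

@[simp] theorem coeff_der (θ : Γ →+ k) (f : HahnSeries Γ k) (γ : Γ) :
    (der θ f).coeff γ = θ γ * f.coeff γ := rfl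

theorem der_support (θ : Γ →+ k) (f : HahnSeries Γ k) : (der θ f).support ⊆ f.support := by
  intro g hg
  simp only [mem_support, coeff_der, ne_eq, mul_eq_zero, not_or] at hg
  exact hg.2

theorem der_add (θ : Γ →+ k) (f g : HahnSeries Γ k) : der θ (f + g) = der θ f + der θ g := by
  ext γ
  simp [mul_add]

theorem der_mul (θ : Γ →+ k) (f g : HahnSeries Γ k) :
    der θ (f * g) = der θ f * g + f * der θ g := by
  ext γ
  rw [coeff_add, coeff_mul_left' f.isPWO_support (der_support θ f),
    coeff_mul_right' g.isPWO_support (der_support θ g), coeff_der, coeff_mul, Finset.mul_sum,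
    ← Finset.sum_add_distrib]
  apply Finset.sum_congr rfl
  intro ij hij
  rw [Finset.mem_antidiagonal] at hij
  rw [← hij.2.2, map_add]
  simp only [coeff_der]
  ring

theorem der_C (θ : Γ →+ k) (c : k) : der θ (HahnSeries.C c) = 0 := by
  ext γ
  rw [coeff_der, HahnSeries.C_apply, HahnSeries.coeff_zero]
  by_cases h : γ = 0
  · subst h; simp
  · rw [HahnSeries.coeff_single_of_ne h, mul_zero]

theorem der_single (θ : Γ →+ k) (γ : Γ) (c : k) :
    der θ (HahnSeries.single γ c) = HahnSeries.C (θ γ) * HahnSeries.single γ c := by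
  ext g
  rw [coeff_der, HahnSeries.C_mul_eq_smul, HahnSeries.coeff_smul, smul_eq_mul]
  by_cases h : g = γ
  · subst h; simp
  · rw [HahnSeries.coeff_single_of_ne h, mul_zero, mul_zero]

theorem der_order (θ : Γ →+ k) (f : HahnSeries Γ k) : f.orderTop ≤ (der θ f).orderTop := by
  by_contra hcon
  rw [not_le] at hcon
  obtain ⟨g, hg⟩ := WithTop.ne_top_iff_exists.mp (ne_top_of_lt hcon)
  have h1 := coeff_orderTop_ne hg.symm
  apply h1
  rw [← hg] at hcon
  rw [coeff_der, coeff_eq_zero_of_lt_orderTop hcon, mul_zero]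

/-- The derivation as a map of `k`-modules. -/
noncomputable def derL (θ : Γ →+ k) : Derivation k (HahnSeries Γ k) (HahnSeries Γ k) where
  toFun := der θ
  map_add' := der_add θ
  map_smul' c f := by
    ext γ
    simp only [coeff_der, HahnSeries.coeff_smul, smul_eq_mul, RingHom.id_apply]
    ring
  map_one_eq_zero' := by
    have := der_C θ (1 : k)
    simpa using this
  leibniz' f g := by
    change der θ (f * g) = f • der θ g + g • der θ f
    rw [der_mul, smul_eq_mul, smul_eq_mul]
    ring

theorem derL_apply (θ : Γ →+ k) (f : HahnSeries Γ k) : derL θ f = der θ f := rfl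

end Run7.h483.Hahn
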