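import Mathlib
import Pool.Agent.Run7.h405.Base
import Pool.Agent.Run7.h483.Hahn

/-! MP_740c6d_ag, piece D: the Hahn valuation. -/

namespace Run7.h483.Hahn

open HahnSeries MvPolynomial Run7.h405

section

variable {Γ : Type*} [AddCommGroup Γ] [LinearOrder Γ] [IsOrderedAddMonoid Γ]
variable (k : Type*) [Field k]
variable (α β τ : Γ)

noncomputable def xx : HahnSeries Γ k := single α 1
noncomputable def ss : HahnSeries Γ k :=
  (single τ 1 + xx k α ^ 4 + xx k β ^ 4) * single (-(α + β)) 1
noncomputable def TT : HahnSeries Γ k := ss k α β τ ^ 3 * single (-(α + β)) 1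
noncomputable def zz : HahnSeries Γ k := ss k α β τ * PowerSeries.heval (TT k α β τ) (gser k)

theorem xyi : xx k α * xx k β * single (-(α + β)) 1 = 1 := by
  rw [xx, xx, single_mul_single, single_mul_single]
  simp

theorem ord_single (g : Γ) : addVal Γ k (single g 1) = g := by
  rw [addVal_apply, orderTop_single one_ne_zero]

theorem ord_xx : addVal Γ k (xx k α) = α := ord_single k α

variable {α β τ}

structure Cond (α β τ : Γ) : Prop where
  h1 : 0 < α
  h2 : α < β
  h3 : β < 3 • α - β
  h4 : 4 • (3 • α - β) < τ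

theorem ord_num (h : Cond α β τ) :
    addVal Γ k (single τ 1 + xx k α ^ 4 + xx k β ^ 4) = ((4 • α : Γ) : WithTop Γ) := by
  have hx : addVal Γ k (xx k α ^ 4) = ((4 • α : Γ) : WithTop Γ) := by
    rw [AddValuation.map_pow, ord_xx]; rfl
  have hy : addVal Γ k (xx k β ^ 4) = ((4 • β : Γ) : WithTop Γ) := by
    rw [AddValuation.map_pow, ord_xx]; rfl
  have h5 : (4 • α : Γ) < 4 • β := nsmul_lt_nsmul_right (by norm_num) h.h2
  have h6 : (4 • α : Γ) < τ := lt_trans (nsmul_lt_nsmul_right (by norm_num) (h.h2.trans h.h3)) h.h4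
  have e1 : addVal Γ k (single τ 1 + xx k α ^ 4) = ((4 • α : Γ) : WithTop Γ) := by
    rw [AddValuation.map_add_eq_of_lt_right]
    · exact hx
    · rw [hx, ord_single]
      exact_mod_cast h6
  rw [AddValuation.map_add_eq_of_lt_left]
  · exact e1
  · rw [e1, hy]
    exact_mod_cast h5

theorem ord_ss (h : Cond α β τ) : addVal Γ k (ss k α β τ) = ((3 • α - β : Γ) : WithTop Γ) := by
  rw [ss, AddValuation.map_mul, ord_num k h, ord_single, ← WithTop.coe_add]
  congr 1
  abel

theorem ord_TT (h : Cond α β τ) :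
    addVal Γ k (TT k α β τ) = ((3 • (3 • α - β) - (α + β) : Γ) : WithTop Γ) := by
  rw [TT, AddValuation.map_mul, AddValuation.map_pow, ord_ss k h, ord_single,
    ← WithTop.coe_nsmul, ← WithTop.coe_add, sub_eq_add_neg (3 • (3 • α - β))]

theorem cond_pos (h : Cond α β τ) : 0 < 3 • (3 • α - β) - (α + β) := by
  have h1 := h.h1
  have h2 := h.h2
  have h3 := h.h3
  have : (0 : Γ) < (3 • α - β) + ((3 • α - β) - β) + ((3 • α - β) - α) := by
    have e1 : 0 < 3 • α - β := lt_trans (lt_trans h1 h2) h3
    have e2 : 0 < (3 • α - β) - β := sub_pos.mpr h3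
    have e3 : 0 < (3 • α - β) - α := sub_pos.mpr (h2.trans h3)
    exact add_pos (add_pos e1 e2) e3
  convert this using 1
  abel

theorem TT_pos (h : Cond α β τ) : 0 < (TT k α β τ).orderTop := by
  rw [← addVal_apply, ord_TT k h]
  exact_mod_cast cond_pos h

theorem ord_zz (h : Cond α β τ) : addVal Γ k (zz k α β τ) = ((3 • α - β : Γ) : WithTop Γ) := by
  rw [zz, AddValuation.map_mul, ord_ss k h, addVal_apply,
    orderTop_heval (TT_pos k h) _ (by rw [gser_const]; exact one_ne_zero), add_zero]

theorem rel (h : Cond α β τ) : xx k α * xx k β * zz k α β τ =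
    single τ 1 + xx k α ^ 4 + xx k β ^ 4 + zz k α β τ ^ 4 := by
  have h1 := xyi k α β
  have hg : PowerSeries.heval (TT k α β τ) (gser k) =
      1 + TT k α β τ * PowerSeries.heval (TT k α β τ) (gser k) ^ 4 := by
    conv_lhs => rw [gser_eq]
    rw [map_add, map_one, map_mul, map_pow, PowerSeries.heval_X _ (TT_pos k h)]
  have hs : xx k α * xx k β * ss k α β τ = single τ 1 + xx k α ^ 4 + xx k β ^ 4 := by
    rw [ss]
    linear_combination (single τ 1 + xx k α ^ 4 + xx k β ^ 4) * h1
  have hT : xx k α * xx k β * TT k α β τ = ss k α β τ ^ 3 := by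
    rw [TT]
    linear_combination (ss k α β τ ^ 3) * h1
  rw [← hs, zz]
  set g := PowerSeries.heval (TT k α β τ) (gser k)
  linear_combination (xx k α * xx k β * ss k α β τ) * hg + (ss k α β τ * g ^ 4) * hT

theorem rel_lt (h : Cond α β τ) :
    addVal Γ k (xx k α * xx k β - 4 * zz k α β τ ^ 3) = ((α + β : Γ) : WithTop Γ) := by
  have e1 : addVal Γ k (xx k α * xx k β) = ((α + β : Γ) : WithTop Γ) := by
    rw [AddValuation.map_mul, ord_xx, ord_xx, WithTop.coe_add]
  have e2 : ((α + β : Γ) : WithTop Γ) < addVal Γ k (4 * zz k α β τ ^ 3) := by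
    rw [AddValuation.map_mul, AddValuation.map_pow, ord_zz k h]
    have e3 : (0 : WithTop Γ) ≤ addVal Γ k 4 := by
      have : (4 : HahnSeries Γ k) = 1 + 1 + 1 + 1 := by norm_num
      rw [this]
      have h1 : (0 : WithTop Γ) ≤ addVal Γ k 1 := by rw [AddValuation.map_one]
      exact AddValuation.map_le_add _ (AddValuation.map_le_add _ (AddValuation.map_le_add _ h1 h1)
        h1) h1
    have e4 : ((α + β : Γ) : WithTop Γ) < 3 • ((3 • α - β : Γ) : WithTop Γ) := by
      rw [← WithTop.coe_nsmul]
      exact_mod_cast sub_pos.mp (cond_pos h)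
    exact lt_of_lt_of_le e4 (le_add_of_nonneg_left e3)
  rw [sub_eq_add_neg, AddValuation.map_add_eq_of_lt_left]
  · exact e1
  · rw [AddValuation.map_neg, e1]
    exact e2

/-- The embedding. -/
noncomputable def psi (α β τ : Γ) : R3 k →ₐ[k] HahnSeries Γ k :=
  aeval ![xx k α, xx k β, zz k α β τ]

theorem psi_lam (h : Cond α β τ) : psi k α β τ (lam k) = single τ 1 := by
  have := rel k h
  simp only [psi, lam, map_sub, map_mul, map_pow, aeval_X]
  simp only [Matrix.cons_val_zero, Matrix.cons_val_one, Matrix.cons_val]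
  linear_combination this

/-- the exponent -/
def ee (α β τ : Γ) (s : Fin 3 →₀ ℕ) : Γ := s 0 • α + s 1 • β + s 2 • τ

theorem aeval_mono (s : Fin 3 →₀ ℕ) (c : k) :
    aeval (R := k) ![xx k α, xx k β, single τ (1 : k)] (monomial s c) =
      HahnSeries.single (ee α β τ s) c := by
  rw [aeval_monomial, Finsupp.prod_fintype _ _ (by simp), Fin.prod_univ_three]
  simp only [Matrix.cons_val_zero, Matrix.cons_val_one, Matrix.cons_val]
  rw [xx, xx, single_pow, single_pow, single_pow, single_mul_single, single_mul_single,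
    HahnSeries.algebraMap_apply, HahnSeries.C_apply, single_mul_single]
  simp [ee]

theorem aeval_coeff (he : Function.Injective (ee α β τ)) (f : R3 k) (s : Fin 3 →₀ ℕ) :
    (aeval (R := k) ![xx k α, xx k β, single τ (1 : k)] f).coeff (ee α β τ s) = f.coeff s := by
  conv_lhs => rw [f.as_sum]
  rw [map_sum, HahnSeries.coeff_sum]
  simp only [aeval_mono]
  by_cases hs : s ∈ f.support
  · rw [Finset.sum_eq_single s]
    · simp
    · intro b _ hb
      rw [HahnSeries.coeff_single_of_ne]
      exact fun h => hb (he h).symm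
    · intro h; exact absurd hs h
  · rw [Finset.sum_eq_zero]
    · exact (notMem_support_iff.mp hs).symm
    · intro b hb
      rw [HahnSeries.coeff_single_of_ne]
      intro h
      exact hs (he h ▸ hb)

/-- the subalgebra hom -/
noncomputable def phi : R3 k →ₐ[k] R3 k := aeval ![X 0, X 1, lam k]

theorem phi_int : (phi k).toRingHom.IsIntegral := by
  letI := (phi k).toRingHom.toAlgebra
  have halg : ∀ f, algebraMap (R3 k) (R3 k) f = phi k f := fun _ => rfl
  have hX0 : IsIntegral (R3 k) (X 0 : R3 k) := by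
    have : (X 0 : R3 k) = algebraMap (R3 k) (R3 k) (X 0) := by
      rw [halg, phi, aeval_X]; rfl
    rw [this]; exact isIntegral_algebraMap
  have hX1 : IsIntegral (R3 k) (X 1 : R3 k) := by
    have : (X 1 : R3 k) = algebraMap (R3 k) (R3 k) (X 1) := by
      rw [halg, phi, aeval_X]; rfl
    rw [this]; exact isIntegral_algebraMap
  have hX2 : IsIntegral (R3 k) (X 2 : R3 k) := by
    refine ⟨Polynomial.X ^ 4 - Polynomial.C (X 0 * X 1) * Polynomial.X +
      Polynomial.C (X 0 ^ 4 + X 1 ^ 4 + X 2), ?_, ?_⟩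
    · monicity!
    · change Polynomial.eval₂ (algebraMap (R3 k) (R3 k)) _ _ = _
      rw [Polynomial.eval₂_add, Polynomial.eval₂_sub, Polynomial.eval₂_mul, Polynomial.eval₂_pow,
        Polynomial.eval₂_X, Polynomial.eval₂_C, Polynomial.eval₂_C, halg, halg, phi]
      simp only [map_add, map_mul, map_pow, aeval_X, Matrix.cons_val_zero, Matrix.cons_val_one,
        Matrix.cons_val, lam]
      ring
  intro f
  change IsIntegral (R3 k) f
  induction f using MvPolynomial.induction_on with
  | C c =>
    have : (C c : R3 k) = algebraMap (R3 k) (R3 k) (C c) := by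
      rw [halg, phi, aeval_C]; rfl
    rw [this]; exact isIntegral_algebraMap
  | add p q hp hq => exact hp.add hq
  | mul_X p i hp =>
    apply hp.mul
    fin_cases i
    · exact hX0
    · exact hX1
    · exact hX2

theorem psi_phi (h : Cond α β τ) (f : R3 k) : psi k α β τ (phi k f) =
    aeval (R := k) ![xx k α, xx k β, single τ (1 : k)] f := by
  rw [← AlgHom.comp_apply]
  congr 1
  apply MvPolynomial.algHom_ext
  intro i
  rw [AlgHom.comp_apply, phi, aeval_X, aeval_X]
  fin_cases i
  · simp [psi]
  · simp [psi]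
  · simp only [Fin.reduceFinMk, Matrix.cons_val]
    exact psi_lam k h

theorem psi_inj (h : Cond α β τ) (he : Function.Injective (ee α β τ)) :
    Function.Injective (psi k α β τ) := by
  letI := (phi k).toRingHom.toAlgebra
  have halg : ∀ f, algebraMap (R3 k) (R3 k) f = phi k f := fun _ => rfl
  haveI : Algebra.IsIntegral (R3 k) (R3 k) := ⟨fun f => phi_int k f⟩
  rw [injective_iff_map_eq_zero]
  have hker : RingHom.ker (psi k α β τ) = ⊥ := by
    have hp : (RingHom.ker (psi k α β τ)).IsPrime := RingHom.ker_isPrime _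
    apply Ideal.eq_bot_of_comap_eq_bot (R := R3 k)
    rw [eq_bot_iff]
    intro f hf
    rw [Ideal.mem_comap, RingHom.mem_ker, halg, psi_phi k h] at hf
    rw [Ideal.mem_bot]
    ext s
    rw [← aeval_coeff k he, hf]
    simp
  intro f hf
  have : f ∈ RingHom.ker (psi k α β τ) := hf
  rw [hker] at this
  exact this

end

end Run7.h483.Hahn
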