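import Mathlib
import Pool.Agent.Run7.h405.Base
import Pool.Agent.Run7.h483.D1

/-! MP_740c6d_ag, piece D: the Jacobian inequality. -/

namespace Run7.h483.Hahn

open HahnSeries MvPolynomial Run7.h405

section

variable {Γ : Type*} [AddCommGroup Γ] [LinearOrder Γ] [IsOrderedAddMonoid Γ]
variable (k : Type*) [Field k]
variable {α β τ : Γ}

theorem chain (θ : Γ →+ k) (f : R3 k) :
    der θ (psi k α β τ f) = ∑ j, psi k α β τ (pderiv j f) * der θ (psi k α β τ (X j)) := by
  induction f using MvPolynomial.induction_on with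
  | C c =>
    have : psi k α β τ (C c) = HahnSeries.C c := by
      rw [psi, aeval_C, HahnSeries.algebraMap_apply]; rfl
    rw [this, der_C]
    simp
  | add p q hp hq =>
    rw [map_add, der_add, hp, hq, ← Finset.sum_add_distrib]
    apply Finset.sum_congr rfl
    intro j _
    rw [map_add, map_add]
    ring
  | mul_X p i hp =>
    rw [map_mul, der_mul, hp, Finset.sum_mul]
    have e1 : psi k α β τ p * der θ (psi k α β τ (X i)) =
        ∑ j, psi k α β τ (p * pderiv j (X i)) * der θ (psi k α β τ (X j)) := by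
      rw [Finset.sum_eq_single i]
      · simp
      · intro b _ hb
        rw [pderiv_X_of_ne (Ne.symm hb)]
        simp
      · simp
    rw [e1, ← Finset.sum_add_distrib]
    apply Finset.sum_congr rfl
    intro j _
    rw [pderiv_mul, map_add, map_mul, map_mul]
    ring

/-- matrices -/
noncomputable def Nm (α β τ : Γ) (θ : Fin 3 → (Γ →+ k)) (f : Fin 3 → R3 k) :
    Matrix (Fin 3) (Fin 3) (HahnSeries Γ k) :=
  Matrix.of fun i m => der (θ m) (psi k α β τ (f i))

noncomputable def Jm (α β τ : Γ) (f : Fin 3 → R3 k) : Matrix (Fin 3) (Fin 3) (HahnSeries Γ k) :=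
  (Matrix.of fun i j => pderiv j (f i)).map (psi k α β τ)

theorem Nm_eq (θ : Fin 3 → (Γ →+ k)) (f : Fin 3 → R3 k) :
    Nm k α β τ θ f = Jm k α β τ f * Nm k α β τ θ X := by
  ext i m : 1
  apply HahnSeries.ext
  rw [Nm, Matrix.of_apply, chain, Matrix.mul_apply]
  rfl

theorem det_Jm (f : Fin 3 → R3 k) : (Jm k α β τ f).det = psi k α β τ (jac f) := by
  rw [jac, Jm]
  exact (AlgHom.map_det (psi k α β τ) _).symm

theorem det_le (θ : Fin 3 → (Γ →+ k)) (f : Fin 3 → R3 k) :
    ∑ i, addVal Γ k (psi k α β τ (f i)) ≤ addVal Γ k ((Nm k α β τ θ f).det) := by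
  have h1 : ∀ i m, addVal Γ k (psi k α β τ (f i)) ≤ addVal Γ k (Nm k α β τ θ f i m) := by
    intro i m
    rw [Nm, Matrix.of_apply, addVal_apply, addVal_apply]
    exact der_order _ _
  have h2 : ∀ m₀ m₁ m₂, ∑ i, addVal Γ k (psi k α β τ (f i)) ≤ addVal Γ k
      (Nm k α β τ θ f 0 m₀ * Nm k α β τ θ f 1 m₁ * Nm k α β τ θ f 2 m₂) := by
    intro m₀ m₁ m₂
    rw [AddValuation.map_mul, AddValuation.map_mul, Fin.sum_univ_three]
    exact add_le_add (add_le_add (h1 _ _) (h1 _ _)) (h1 _ _)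
  rw [Matrix.det_fin_three]
  have h3 : ∀ {x y : HahnSeries Γ k} {g : WithTop Γ}, g ≤ addVal Γ k x → g ≤ addVal Γ k y →
      g ≤ addVal Γ k (x - y) := fun hx hy => AddValuation.map_le_sub _ hx hy
  have h4 : ∀ {x y : HahnSeries Γ k} {g : WithTop Γ}, g ≤ addVal Γ k x → g ≤ addVal Γ k y →
      g ≤ addVal Γ k (x + y) := fun hx hy => AddValuation.map_le_add _ hx hy
  refine h3 (h4 (h4 (h3 (h3 (h2 0 1 2) ?_) ?_) ?_) ?_) ?_
  · convert h2 0 2 1 using 2
  · convert h2 1 0 2 using 2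
  · convert h2 1 2 0 using 2
  · convert h2 2 0 1 using 2
  · convert h2 2 1 0 using 2

theorem det_M (h : Cond α β τ) (θ : Fin 3 → (Γ →+ k))
    (h00 : θ 0 α = 1) (h01 : θ 0 β = 0) (h10 : θ 1 α = 0) (h11 : θ 1 β = 1)
    (h20 : θ 2 α = 0) (h21 : θ 2 β = 0) (h22 : θ 2 τ = 1) :
    addVal Γ k ((Nm k α β τ θ X).det) = (τ : WithTop Γ) := by
  have hX0 : psi k α β τ (X 0) = xx k α := by rw [psi, aeval_X]; rfl
  have hX1 : psi k α β τ (X 1) = xx k β := by rw [psi, aeval_X]; rfl
  have hX2 : psi k α β τ (X 2) = zz k α β τ := by rw [psi, aeval_X]; rfl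
  have d : ∀ m (γ : Γ), der (θ m) (xx k γ) = HahnSeries.C (θ m γ) * xx k γ := by
    intro m γ
    rw [xx, der_single]
  set δ := der (θ 2) (zz k α β τ) with hδ
  have hdet : (Nm k α β τ θ X).det = xx k α * xx k β * δ := by
    rw [Matrix.det_fin_three]
    simp only [Nm, Matrix.of_apply, hX0, hX1, hX2, d, h00, h01, h10, h11, h20, h21]
    simp only [map_zero, map_one]
    rw [← hδ]
    ring
  have hrel : δ * (xx k α * xx k β - 4 * zz k α β τ ^ 3) = single τ 1 := by
    have hr := congrArg (der (θ 2)) (rel k h)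
    have hd4 : ∀ f : HahnSeries Γ k, der (θ 2) (f ^ 4) = 4 * f ^ 3 * der (θ 2) f := by
      intro f
      have : f ^ 4 = f * (f * (f * f)) := by ring
      rw [this, der_mul, der_mul, der_mul]
      ring
    rw [der_mul, der_mul, der_add, der_add, der_add, hd4, hd4, hd4, d, d, h20, h21, der_single,
      h22, ← hδ] at hr
    simp only [map_zero, map_one] at hr
    linear_combination hr
  have hw := congrArg (addVal Γ k) hrel
  rw [AddValuation.map_mul, rel_lt k h, ord_single] at hw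
  rw [hdet, AddValuation.map_mul, AddValuation.map_mul, ord_xx, ord_xx, ← WithTop.coe_add,
    add_comm, hw]

theorem jac_le (h : Cond α β τ) (θ : Fin 3 → (Γ →+ k))
    (h00 : θ 0 α = 1) (h01 : θ 0 β = 0) (h10 : θ 1 α = 0) (h11 : θ 1 β = 1)
    (h20 : θ 2 α = 0) (h21 : θ 2 β = 0) (h22 : θ 2 τ = 1) (f : Fin 3 → R3 k) :
    ∑ i, addVal Γ k (psi k α β τ (f i)) ≤ addVal Γ k (psi k α β τ (jac f)) + (τ : WithTop Γ) := by
  refine le_trans (det_le k θ f) ?_
  rw [Nm_eq, Matrix.det_mul, det_Jm, AddValuation.map_mul, det_M k h θ h00 h01 h10 h11 h20 h21 h22]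

end

/-- The map on `WithTop`. -/
noncomputable def topMap {Γ : Type*} [AddCommGroup Γ] (ι : Γ →+ ℝ) :
    WithTop Γ →+ WithTop ℝ := ι.withTopMap

theorem topMap_coe {Γ : Type*} [AddCommGroup Γ] (ι : Γ →+ ℝ) (g : Γ) :
    topMap ι (g : WithTop Γ) = ((ι g : ℝ) : WithTop ℝ) := rfl

theorem topMap_top {Γ : Type*} [AddCommGroup Γ] (ι : Γ →+ ℝ) : topMap ι ⊤ = ⊤ := rfl

/-- Version for an abstract group. -/
theorem exists_abs {Γ : Type*} [AddCommGroup Γ] [LinearOrder Γ] [IsOrderedAddMonoid Γ]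
    (k : Type*) [Field k] [CharZero k] (α β τ : Γ) (h : Cond α β τ) (ι : Γ →+ ℝ) (hι : StrictMono ι)
    (he : Function.Injective (ee α β τ)) (θ : Fin 3 → (Γ →+ k))
    (h00 : θ 0 α = 1) (h01 : θ 0 β = 0) (h10 : θ 1 α = 0) (h11 : θ 1 β = 1)
    (h20 : θ 2 α = 0) (h21 : θ 2 β = 0) (h22 : θ 2 τ = 1) :
    ∃ v : AddValuation (K3 k) (WithTop ℝ),
      (∀ c : k, c ≠ 0 → v (algebraMap (R3 k) (K3 k) (C c)) = 0) ∧
      v (algebraMap (R3 k) (K3 k) (X 0)) = ((ι α : ℝ) : WithTop ℝ) ∧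
      v (algebraMap (R3 k) (K3 k) (X 1)) = ((ι β : ℝ) : WithTop ℝ) ∧
      v (algebraMap (R3 k) (K3 k) (X 2)) = ((ι (3 • α - β) : ℝ) : WithTop ℝ) ∧
      v (algebraMap (R3 k) (K3 k) (lam k)) = ((ι τ : ℝ) : WithTop ℝ) ∧
      (∀ f : R3 k, f ≠ 0 → ∃ γ : Γ,
        v (algebraMap (R3 k) (K3 k) f) = ((ι γ : ℝ) : WithTop ℝ)) ∧
      (∀ f : Fin 3 → R3 k,
        ∑ i, v (algebraMap (R3 k) (K3 k) (f i)) ≤
          v (algebraMap (R3 k) (K3 k) (jac f)) + ((ι τ : ℝ) : WithTop ℝ)) := by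
  have hinj := psi_inj k h he
  have hmono : Monotone (topMap ι) := by
    intro a b hab
    induction b using WithTop.recTopCoe with
    | top => rw [topMap_top]; exact le_top
    | coe b =>
      induction a using WithTop.recTopCoe with
      | top => exact absurd hab (by simp)
      | coe a =>
        rw [topMap_coe, topMap_coe]
        have : a ≤ b := by exact_mod_cast hab
        exact_mod_cast hι.monotone this
  let w : AddValuation (HahnSeries Γ k) (WithTop ℝ) :=
    (addVal Γ k).map (topMap ι) (topMap_top ι) hmono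
  let L : K3 k →+* HahnSeries Γ k := IsFractionRing.lift (A := R3 k) (K := K3 k)
    (g := (psi k α β τ).toRingHom) hinj
  have hv : ∀ f : R3 k, (w.comap L) (algebraMap (R3 k) (K3 k) f) =
      topMap ι (addVal Γ k (psi k α β τ f)) := by
    intro f
    change topMap ι (addVal Γ k (L (algebraMap (R3 k) (K3 k) f))) = _
    have : L (algebraMap (R3 k) (K3 k) f) = psi k α β τ f := IsFractionRing.lift_algebraMap hinj f
    rw [this]
  refine ⟨w.comap L, ?_, ?_, ?_, ?_, ?_, ?_, ?_⟩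
  · intro c hc
    rw [hv, psi, aeval_C, HahnSeries.algebraMap_apply, HahnSeries.C_apply, addVal_apply,
      orderTop_single (by simpa using hc)]
    rw [topMap_coe, map_zero]
    rfl
  · rw [hv, psi, aeval_X]
    change topMap ι (addVal Γ k (xx k α)) = _
    rw [ord_xx, topMap_coe]
  · rw [hv, psi, aeval_X]
    change topMap ι (addVal Γ k (xx k β)) = _
    rw [ord_xx, topMap_coe]
  · rw [hv, psi, aeval_X]
    change topMap ι (addVal Γ k (zz k α β τ)) = _
    rw [ord_zz k h, topMap_coe]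
  · rw [hv, psi_lam k h, ord_single, topMap_coe]
  · intro f hf
    have hne : psi k α β τ f ≠ 0 := by
      intro h0
      exact hf (hinj (by rw [h0, map_zero]))
    refine ⟨(psi k α β τ f).order, ?_⟩
    rw [hv, addVal_apply_of_ne hne, topMap_coe]
  · intro f
    rw [hv]
    simp only [hv]
    rw [← map_sum, ← topMap_coe, ← map_add]
    exact hmono (jac_le k h θ h00 h01 h10 h11 h20 h21 h22 f)

end Run7.h483.Hahn
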