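import Mathlib
import Pool.Agent.Run7.h405.Base
import Pool.Agent.Run7.h483.D2

/-! MP_740c6d_ag, piece D: the final statement. -/

namespace Run7.h483.Hahn

open MvPolynomial Run7.h405

/-- `(l,m,n) ↦ l + m a + n b`. -/
noncomputable def phiAB (a b : ℝ) : ℤ × ℤ × ℤ →+ ℝ :=
  AddMonoidHom.mk' (fun p => (p.1 : ℝ) + p.2.1 * a + p.2.2 * b) (by
    intro p q
    simp only [Prod.fst_add, Prod.snd_add]
    push_cast
    ring)

theorem phiAB_apply (a b : ℝ) (p : ℤ × ℤ × ℤ) :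
    phiAB a b p = (p.1 : ℝ) + p.2.1 * a + p.2.2 * b := rfl

end Run7.h483.Hahn

namespace Run7.h483

open MvPolynomial Run7.h405 Run7.h483.Hahn

theorem exists_v0 (k : Type*) [Field k] [CharZero k] (a b : ℝ) (ha : 0 < a) (hab : a < b)
    (hbc : b < 3 * a - b) (hc : 4 * (3 * a - b) < 1)
    (hind : ∀ l m n : ℤ, (l : ℝ) + m * a + n * b = 0 → l = 0 ∧ m = 0 ∧ n = 0) :
    ∃ v : AddValuation (K3 k) (WithTop ℝ),
      (∀ c : k, c ≠ 0 → v (algebraMap (R3 k) (K3 k) (C c)) = 0) ∧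
      v (algebraMap (R3 k) (K3 k) (X 0)) = (a : ℝ) ∧
      v (algebraMap (R3 k) (K3 k) (X 1)) = (b : ℝ) ∧
      v (algebraMap (R3 k) (K3 k) (X 2)) = ((3 * a - b : ℝ) : WithTop ℝ) ∧
      v (algebraMap (R3 k) (K3 k) (lam k)) = (1 : ℝ) ∧
      (∀ f : R3 k, f ≠ 0 → ∃ l m n : ℤ,
        v (algebraMap (R3 k) (K3 k) f) = (((l : ℝ) + m * a + n * b : ℝ) : WithTop ℝ)) ∧
      (∀ f : Fin 3 → R3 k, jac f ≠ 0 →
        ∑ i, v (algebraMap (R3 k) (K3 k) (f i)) ≤
          v (algebraMap (R3 k) (K3 k) (jac f)) + ((1 : ℝ) : WithTop ℝ)) := by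
  have hinj : Function.Injective (phiAB a b) := by
    rw [injective_iff_map_eq_zero]
    intro p hp
    rw [phiAB_apply] at hp
    obtain ⟨h1, h2, h3⟩ := hind _ _ _ hp
    exact Prod.ext h1 (Prod.ext h2 h3)
  let e : ℤ × ℤ × ℤ ≃+ (phiAB a b).range := AddMonoidHom.ofInjective hinj
  have he : ∀ p, ((e p : (phiAB a b).range) : ℝ) = (p.1 : ℝ) + p.2.1 * a + p.2.2 * b := fun p => rfl
  let α : (phiAB a b).range := e (0, 1, 0)
  let β : (phiAB a b).range := e (0, 0, 1)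
  let τ : (phiAB a b).range := e (1, 0, 0)
  have hα : ((α : (phiAB a b).range) : ℝ) = a := by rw [he]; simp
  have hβ : ((β : (phiAB a b).range) : ℝ) = b := by rw [he]; simp
  have hτ : ((τ : (phiAB a b).range) : ℝ) = 1 := by rw [he]; simp
  have hγ : (((3 • α - β : (phiAB a b).range)) : ℝ) = 3 * a - b := by
    push_cast
    rw [hα, hβ]
    simp
  have hcond : Cond α β τ := by
    constructor
    · rw [← Subtype.coe_lt_coe, hα]; exact ha
    · rw [← Subtype.coe_lt_coe, hα, hβ]; exact hab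
    · rw [← Subtype.coe_lt_coe, hγ, hβ]; exact hbc
    · rw [← Subtype.coe_lt_coe, hτ, AddSubgroup.coe_nsmul, hγ]
      simpa using hc
  have hee : Function.Injective (ee α β τ) := by
    have h0 : ∀ s : Fin 3 →₀ ℕ, ee α β τ s = e ((s 2 : ℤ), (s 0 : ℤ), (s 1 : ℤ)) := by
      intro s
      rw [ee]
      simp only [α, β, τ]
      rw [← map_nsmul, ← map_nsmul, ← map_nsmul, ← map_add, ← map_add]
      congr 1
      simp
    intro s t hst
    rw [h0, h0] at hst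
    have h1 := e.injective hst
    simp only [Prod.mk.injEq, Nat.cast_inj] at h1
    ext i
    fin_cases i
    · exact h1.2.1
    · exact h1.2.2
    · exact h1.1
  let pr : Fin 3 → (ℤ × ℤ × ℤ →+ ℤ) :=
    ![(AddMonoidHom.fst ℤ ℤ).comp (AddMonoidHom.snd ℤ (ℤ × ℤ)),
      (AddMonoidHom.snd ℤ ℤ).comp (AddMonoidHom.snd ℤ (ℤ × ℤ)), AddMonoidHom.fst ℤ (ℤ × ℤ)]
  let θ : Fin 3 → ((phiAB a b).range →+ k) := fun i =>
    (Int.castAddHom k).comp ((pr i).comp e.symm.toAddMonoidHom)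
  have hθ : ∀ i p, θ i (e p) = ((pr i p : ℤ) : k) := by
    intro i p
    simp [θ]
  obtain ⟨v, v1, v2, v3, v4, v5, v6, v7⟩ := exists_abs k α β τ hcond
    ((phiAB a b).range.subtype) (fun _ _ h => h) hee θ
    (by rw [hθ]; simp [pr]) (by rw [hθ]; simp [pr]) (by rw [hθ]; simp [pr])
    (by rw [hθ]; simp [pr]) (by rw [hθ]; simp [pr]) (by rw [hθ]; simp [pr])
    (by rw [hθ]; simp [pr])
  simp only [AddSubgroup.subtype_apply, hα, hβ, hγ, hτ] at v2 v3 v4 v5 v7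
  refine ⟨v, v1, v2, v3, v4, v5, ?_, fun f _ => v7 f⟩
  intro f hf
  obtain ⟨γ, hγ'⟩ := v6 f hf
  refine ⟨(e.symm γ).1, (e.symm γ).2.1, (e.symm γ).2.2, ?_⟩
  rw [hγ', AddSubgroup.subtype_apply, ← he (e.symm γ), AddEquiv.apply_symm_apply]

end Run7.h483
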