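import Mathlib
import Pool.Agent.Run7.h405.Base

/-! MP_740c6d_ag, piece E5: real arcs, preliminaries. -/

namespace Run7.h483.Arc

open MvPolynomial Filter Topology Asymptotics Run7.h405

/-! Algebra. -/

def mx : ℕ → ℕ
  | 0 => 0
  | (j+1) => 4 * mx j + 1

noncomputable def NN : ℕ → MP
  | 0 => 0
  | (j+1) => (X 2 + X 0 ^ 4 + X 1 ^ 4) * (X 0 * X 1) ^ (4 * mx j) + (NN j) ^ 4

noncomputable def zj {S : Type*} [Field S] (x y l : S) : ℕ → S
  | 0 => 0
  | (j+1) => (l + x ^ 4 + y ^ 4 + (zj x y l j) ^ 4) / (x * y)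

theorem zj_N {S : Type*} [Field S] [Algebra ℚ S] (x y l : S) (hxy : x * y ≠ 0) (j : ℕ) :
    zj x y l j * (x * y) ^ (mx j) = aeval ![x, y, l] (NN j) := by
  induction j with
  | zero => simp [zj, NN]
  | succ j ih =>
    rw [zj, mx, NN]
    simp only [map_add, map_mul, map_pow, aeval_X, Matrix.cons_val_zero, Matrix.cons_val_one,
      Matrix.cons_val]
    rw [← ih, div_mul_eq_mul_div, div_eq_iff hxy]
    ring

noncomputable def Phi (N : MP) (m d : ℕ) (F : MP) : MP :=
  ∑ s ∈ F.support, C (F.coeff s) * (X 0 ^ s 0 * X 1 ^ s 1 * N ^ s 2 *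
    (X 0 * X 1) ^ (m * (d - s 2)))

theorem Phi_eq {S : Type*} [CommRing S] [Algebra ℚ S] (N : MP) (m d : ℕ) (F : MP)
    (hd : ∀ s ∈ F.support, s 2 ≤ d) (x y l ζ : S)
    (h : ζ * (x * y) ^ m = aeval ![x, y, l] N) :
    (x * y) ^ (m * d) * aeval ![x, y, ζ] F = aeval ![x, y, l] (Phi N m d F) := by
  rw [aeval_def (p := F), eval₂_eq', Phi, map_sum, Finset.mul_sum]
  apply Finset.sum_congr rfl
  intro s hs
  have h1 : m * d = m * s 2 + m * (d - s 2) := by
    rw [← mul_add, Nat.add_sub_cancel' (hd s hs)]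
  simp only [map_mul, map_pow, aeval_X, aeval_C, Fin.prod_univ_three, Matrix.cons_val_zero,
    Matrix.cons_val_one, Matrix.cons_val]
  rw [← h, h1, pow_add, pow_mul]
  ring

/-! Valuations. -/

section val

variable {K : Type*} [Field K] [CharZero K] (v : AddValuation K (WithTop ℝ))

theorem v_coef (hQ : ∀ c : ℚ, c ≠ 0 → v (c : K) = 0) (c : ℚ) : 0 ≤ v (algebraMap ℚ K c) := by
  rw [eq_ratCast]
  by_cases h : c = 0
  · subst h; simp
  · rw [hQ c h]

theorem v_poly (hQ : ∀ c : ℚ, c ≠ 0 → v (c : K) = 0) (x y z : K) (hx : 0 ≤ v x) (hy : 0 ≤ v y)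
    (hz : 0 ≤ v z) (F : MP) : 0 ≤ v (aeval ![x, y, z] F) := by
  induction F using MvPolynomial.induction_on with
  | C c => rw [aeval_C]; exact v_coef v hQ c
  | add p q hp hq => rw [map_add]; exact AddValuation.map_le_add _ hp hq
  | mul_X p i hp =>
    rw [map_mul, AddValuation.map_mul, aeval_X]
    apply add_nonneg hp
    fin_cases i
    · exact hx
    · exact hy
    · exact hz

theorem v_diff (hQ : ∀ c : ℚ, c ≠ 0 → v (c : K) = 0) (x y z z' : K) (hx : 0 ≤ v x) (hy : 0 ≤ v y)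
    (hz : 0 ≤ v z) (hz' : 0 ≤ v z') (F : MP) :
    v (z - z') ≤ v (aeval ![x, y, z] F - aeval ![x, y, z'] F) := by
  induction F using MvPolynomial.induction_on with
  | C c => rw [aeval_C, aeval_C, sub_self, AddValuation.map_zero]; exact le_top
  | add p q hp hq =>
    rw [map_add, map_add, add_sub_add_comm]
    exact AddValuation.map_le_add _ hp hq
  | mul_X p i hp =>
    have e : aeval ![x, y, z] (p * X i) - aeval ![x, y, z'] (p * X i) =
        (aeval ![x, y, z] p - aeval ![x, y, z'] p) * (![x, y, z] i) +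
        aeval ![x, y, z'] p * (![x, y, z] i - ![x, y, z'] i) := by
      rw [map_mul, map_mul, aeval_X, aeval_X]
      ring
    rw [e]
    apply AddValuation.map_le_add
    · rw [AddValuation.map_mul]
      apply le_add_of_le_of_nonneg hp
      fin_cases i
      · exact hx
      · exact hy
      · exact hz
    · rw [AddValuation.map_mul]
      apply le_add_of_nonneg_of_le (v_poly v hQ x y z' hx hy hz' p)
      fin_cases i
      · simp
      · simp
      · simp

theorem v_zj (x y z l : K) (a b c : ℝ)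
    (hx : v x = (a : ℝ)) (hy : v y = (b : ℝ)) (hz : v z = (c : ℝ)) (hc : a + b < 3 * c)
    (hxy : x * y ≠ 0)
    (hrel : x * y * z = l + x ^ 4 + y ^ 4 + z ^ 4) (j : ℕ) :
    ((c + j * (3 * c - a - b) : ℝ) : WithTop ℝ) ≤ v (z - zj x y l j) ∧
      ((c : ℝ) : WithTop ℝ) ≤ v (zj x y l j) := by
  have aux : ((c + j * (3 * c - a - b) : ℝ) : WithTop ℝ) ≤ v (z - zj x y l j) →
      ((c : ℝ) : WithTop ℝ) ≤ v (zj x y l j) := by
    intro h
    have e : zj x y l j = z - (z - zj x y l j) := by ring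
    rw [e]
    apply AddValuation.map_le_sub
    · rw [hz]
    · refine le_trans ?_ h
      have : (0:ℝ) ≤ j * (3 * c - a - b) := mul_nonneg (by positivity) (by linarith)
      exact_mod_cast (by linarith : c ≤ c + j * (3 * c - a - b))
  suffices h : ((c + j * (3 * c - a - b) : ℝ) : WithTop ℝ) ≤ v (z - zj x y l j) from ⟨h, aux h⟩
  clear aux
  induction j with
  | zero => rw [zj, sub_zero, hz]; simp
  | succ j ih =>
    have h2 : ((c : ℝ) : WithTop ℝ) ≤ v (zj x y l j) := by
      have e : zj x y l j = z - (z - zj x y l j) := by ring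
      rw [e]
      apply AddValuation.map_le_sub
      · rw [hz]
      · refine le_trans ?_ ih
        have : (0:ℝ) ≤ j * (3 * c - a - b) := mul_nonneg (by positivity) (by linarith)
        exact_mod_cast (by linarith : c ≤ c + j * (3 * c - a - b))
    set w := zj x y l j with hw
    have e : (x * y) * (z - zj x y l (j+1)) = (z - w) * (z ^ 3 + z ^ 2 * w + z * w ^ 2 + w ^ 3) := by
      rw [zj, ← hw, mul_sub, mul_div_cancel₀ _ hxy, hrel]
      ring
    have h3 : ((3 * c : ℝ) : WithTop ℝ) ≤ v (z ^ 3 + z ^ 2 * w + z * w ^ 2 + w ^ 3) := by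
      have hz3 : ((c : ℝ) : WithTop ℝ) ≤ v z := by rw [hz]
      have gen : ∀ p q r : K, ((c : ℝ) : WithTop ℝ) ≤ v p → ((c : ℝ) : WithTop ℝ) ≤ v q →
          ((c : ℝ) : WithTop ℝ) ≤ v r → ((3 * c : ℝ) : WithTop ℝ) ≤ v (p * q * r) := by
        intro p q r h1 h2 h3
        rw [AddValuation.map_mul, AddValuation.map_mul]
        have : ((3 * c : ℝ) : WithTop ℝ) = (c : WithTop ℝ) + (c : WithTop ℝ) + (c : WithTop ℝ) := by
          norm_cast
          ring_nf
        rw [this]
        exact add_le_add (add_le_add h1 h2) h3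
      have e1 : z ^ 3 = z * z * z := by ring
      have e2 : z ^ 2 * w = z * z * w := by ring
      have e3 : z * w ^ 2 = z * w * w := by ring
      have e4 : w ^ 3 = w * w * w := by ring
      rw [e1, e2, e3, e4]
      exact AddValuation.map_le_add _ (AddValuation.map_le_add _ (AddValuation.map_le_add _
        (gen _ _ _ hz3 hz3 hz3) (gen _ _ _ hz3 hz3 h2)) (gen _ _ _ hz3 h2 h2)) (gen _ _ _ h2 h2 h2)
    have h4 := congrArg v e
    rw [AddValuation.map_mul, AddValuation.map_mul, AddValuation.map_mul, hx, hy] at h4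
    have h5 : ((c + j * (3 * c - a - b) + 3 * c : ℝ) : WithTop ℝ) ≤
        (a : WithTop ℝ) + (b : WithTop ℝ) + v (z - zj x y l (j+1)) := by
      rw [h4, WithTop.coe_add]
      exact add_le_add ih h3
    revert h5
    induction v (z - zj x y l (j+1)) using WithTop.recTopCoe with
    | top => intro _; exact le_top
    | coe g =>
      intro h5
      have h6 : c + j * (3 * c - a - b) + 3 * c ≤ a + b + g := by exact_mod_cast h5
      have h7 : c + ((j + 1 : ℕ) : ℝ) * (3 * c - a - b) ≤ g := by push_cast; linarith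
      exact_mod_cast h7

/-- the exponent of `z` -/
theorem c_min (x y z l : K) (a b c : ℝ)
    (hx : v x = (a : ℝ)) (hy : v y = (b : ℝ)) (hz : v z = (c : ℝ)) (hl : v l = (1 : ℝ))
    (hc : a + b < 3 * c)
    (hrel : x * y * z = l + x ^ 4 + y ^ 4 + z ^ 4)
    (hmono : ∀ h : MP, ∀ s ∈ h.support,
      v (aeval ![x, y, l] h) ≤ ((s 0 * a + s 1 * b + s 2 : ℝ) : WithTop ℝ)) :
    a + b + c ≤ 4 * a ∧ a + b + c ≤ 4 * b ∧ a + b + c ≤ 1 ∧ min 1 (min (4 * a) (4 * b)) ≤ a + b + c := by
  have e : l + x ^ 4 + y ^ 4 = z * (x * y - z ^ 3) := by linear_combination - hrel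
  have h1 : v (x * y - z ^ 3) = ((a + b : ℝ) : WithTop ℝ) := by
    have e1 : v (x * y) = ((a + b : ℝ) : WithTop ℝ) := by
      rw [AddValuation.map_mul, hx, hy, WithTop.coe_add]
    rw [sub_eq_add_neg, AddValuation.map_add_eq_of_lt_left]
    · exact e1
    · rw [AddValuation.map_neg, e1, AddValuation.map_pow, hz]
      have : (3 : ℕ) • ((c : ℝ) : WithTop ℝ) = ((3 * c : ℝ) : WithTop ℝ) := by
        rw [← WithTop.coe_nsmul, nsmul_eq_mul]
        norm_num
      rw [this]
      exact_mod_cast hc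
  have h2 : v (l + x ^ 4 + y ^ 4) = ((a + b + c : ℝ) : WithTop ℝ) := by
    rw [e, AddValuation.map_mul, hz, h1, ← WithTop.coe_add]
    congr 1
    ring
  have h3 : aeval ![x, y, l] (X 2 + X 0 ^ 4 + X 1 ^ 4 : MP) = l + x ^ 4 + y ^ 4 := by
    simp
  have hm := hmono (X 2 + X 0 ^ 4 + X 1 ^ 4)
  rw [h3, h2] at hm
  refine ⟨?_, ?_, ?_, ?_⟩
  · have := hm (Finsupp.single 0 4) (by
      rw [mem_support_iff]
      simp [coeff_X, coeff_X_pow, Finsupp.single_eq_single_iff])
    have h4 := WithTop.coe_le_coe.mp this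
    simp at h4
    linarith
  · have := hm (Finsupp.single 1 4) (by
      rw [mem_support_iff]
      simp [coeff_X, coeff_X_pow, Finsupp.single_eq_single_iff])
    have h4 := WithTop.coe_le_coe.mp this
    simp at h4
    linarith
  · have := hm (Finsupp.single 2 1) (by
      rw [mem_support_iff]
      simp [coeff_X, coeff_X_pow, Finsupp.single_eq_single_iff])
    have h4 := WithTop.coe_le_coe.mp this
    simp at h4
    linarith
  · have : ((min 1 (min (4 * a) (4 * b)) : ℝ) : WithTop ℝ) ≤ v (l + x ^ 4 + y ^ 4) := by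
      apply AddValuation.map_le_add
      · apply AddValuation.map_le_add
        · rw [hl]; exact_mod_cast min_le_left _ _
        · rw [AddValuation.map_pow, hx, ← WithTop.coe_nsmul, nsmul_eq_mul]
          have : min 1 (min (4 * a) (4 * b)) ≤ 4 * a := le_trans (min_le_right _ _) (min_le_left _ _)
          exact_mod_cast this
      · rw [AddValuation.map_pow, hy, ← WithTop.coe_nsmul, nsmul_eq_mul]
        have : min 1 (min (4 * a) (4 * b)) ≤ 4 * b := le_trans (min_le_right _ _) (min_le_right _ _)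
        exact_mod_cast this
    rw [h2] at this
    exact WithTop.coe_le_coe.mp this

end val

/-! Real bounds. -/

theorem r_bdd (F : MP) : ∃ C : ℝ, 0 ≤ C ∧ ∀ x y z : ℝ, 0 ≤ x → x ≤ 1 → 0 ≤ y → y ≤ 1 →
    0 ≤ z → z ≤ 1 → |aeval ![x, y, z] F| ≤ C := by
  induction F using MvPolynomial.induction_on with
  | C c =>
    refine ⟨|algebraMap ℚ ℝ c|, abs_nonneg _, ?_⟩
    intro x y z _ _ _ _ _ _
    rw [aeval_C]
  | add p q hp hq =>
    obtain ⟨C1, h1, h2⟩ := hp
    obtain ⟨C2, h3, h4⟩ := hq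
    refine ⟨C1 + C2, by positivity, ?_⟩
    intro x y z a1 a2 a3 a4 a5 a6
    rw [map_add]
    exact le_trans (abs_add_le _ _) (add_le_add (h2 x y z a1 a2 a3 a4 a5 a6)
      (h4 x y z a1 a2 a3 a4 a5 a6))
  | mul_X p i hp =>
    obtain ⟨C1, h1, h2⟩ := hp
    refine ⟨C1, h1, ?_⟩
    intro x y z a1 a2 a3 a4 a5 a6
    rw [map_mul, aeval_X, abs_mul]
    have h3 : |![x, y, z] i| ≤ 1 := by
      fin_cases i
      · simpa [abs_of_nonneg a1] using a2
      · simpa [abs_of_nonneg a3] using a4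
      · simpa [abs_of_nonneg a5] using a6
    calc |aeval ![x, y, z] p| * |![x, y, z] i| ≤ C1 * 1 :=
          mul_le_mul (h2 x y z a1 a2 a3 a4 a5 a6) h3 (abs_nonneg _) h1
      _ = C1 := mul_one _

theorem r_diff (F : MP) : ∃ C : ℝ, 0 ≤ C ∧ ∀ x y z z' : ℝ, 0 ≤ x → x ≤ 1 → 0 ≤ y → y ≤ 1 →
    0 ≤ z → z ≤ 1 → 0 ≤ z' → z' ≤ 1 →
    |aeval ![x, y, z] F - aeval ![x, y, z'] F| ≤ C * |z - z'| := by
  induction F using MvPolynomial.induction_on with
  | C c =>
    refine ⟨0, le_rfl, ?_⟩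
    intro x y z z' _ _ _ _ _ _ _ _
    rw [aeval_C, aeval_C]
    simp
  | add p q hp hq =>
    obtain ⟨C1, h1, h2⟩ := hp
    obtain ⟨C2, h3, h4⟩ := hq
    refine ⟨C1 + C2, by positivity, ?_⟩
    intro x y z z' a1 a2 a3 a4 a5 a6 a7 a8
    rw [map_add, map_add, add_sub_add_comm, add_mul]
    exact le_trans (abs_add_le _ _) (add_le_add (h2 x y z z' a1 a2 a3 a4 a5 a6 a7 a8)
      (h4 x y z z' a1 a2 a3 a4 a5 a6 a7 a8))
  | mul_X p i hp =>
    obtain ⟨C1, h1, h2⟩ := hp
    obtain ⟨C2, h3, h4⟩ := r_bdd p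
    refine ⟨C1 + C2, by positivity, ?_⟩
    intro x y z z' a1 a2 a3 a4 a5 a6 a7 a8
    have e : aeval ![x, y, z] (p * X i) - aeval ![x, y, z'] (p * X i) =
        (aeval ![x, y, z] p - aeval ![x, y, z'] p) * (![x, y, z] i) +
        aeval ![x, y, z'] p * (![x, y, z] i - ![x, y, z'] i) := by
      rw [map_mul, map_mul, aeval_X, aeval_X]
      ring
    have h5 : |![x, y, z] i| ≤ 1 := by
      fin_cases i
      · simpa [abs_of_nonneg a1] using a2
      · simpa [abs_of_nonneg a3] using a4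
      · simpa [abs_of_nonneg a5] using a6
    have h6 : |![x, y, z] i - ![x, y, z'] i| ≤ |z - z'| := by
      fin_cases i
      · simp
      · simp
      · simp
    rw [e, add_mul]
    refine le_trans (abs_add_le _ _) (add_le_add ?_ ?_)
    · rw [abs_mul]
      calc _ ≤ (C1 * |z - z'|) * 1 := mul_le_mul (h2 x y z z' a1 a2 a3 a4 a5 a6 a7 a8) h5
            (abs_nonneg _) (by positivity)
        _ = _ := mul_one _
    · rw [abs_mul]
      exact mul_le_mul (h4 x y z' a1 a2 a3 a4 a7 a8) h6 (abs_nonneg _) h3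

end Run7.h483.Arc
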