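import Mathlib
import Pool.Agent.Run7.h405.Base
import Pool.Agent.Run7.h483.E1

/-! MP_740c6d_ag, piece E5: real arcs. -/

namespace Run7.h483.Arc

open MvPolynomial Filter Topology Asymptotics Run7.h405

/-- the numerator -/
noncomputable def EE (a b t : ℝ) : ℝ := t + (t ^ a) ^ 4 + (t ^ b) ^ 4

theorem pow4 {t : ℝ} (ht : 0 < t) (a : ℝ) : (t ^ a) ^ 4 = t ^ (4 * a) := by
  rw [← Real.rpow_natCast, ← Real.rpow_mul ht.le]
  congr 1
  push_cast
  ring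

theorem EE_bounds {a b m : ℝ} (h1 : m ≤ 4 * a) (h2 : m ≤ 4 * b) (h3 : m ≤ 1)
    (h4 : min 1 (min (4 * a) (4 * b)) ≤ m) {t : ℝ} (ht : 0 < t) (ht1 : t ≤ 1) :
    t ^ m ≤ EE a b t ∧ EE a b t ≤ 3 * t ^ m := by
  rw [EE, pow4 ht, pow4 ht]
  have e1 : t ≤ t ^ m := by
    conv_lhs => rw [← Real.rpow_one t]
    exact Real.rpow_le_rpow_of_exponent_ge ht ht1 h3
  have e2 : t ^ (4 * a) ≤ t ^ m := Real.rpow_le_rpow_of_exponent_ge ht ht1 h1
  have e3 : t ^ (4 * b) ≤ t ^ m := Real.rpow_le_rpow_of_exponent_ge ht ht1 h2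
  have p1 : 0 < t ^ (4 * a) := Real.rpow_pos_of_pos ht _
  have p2 : 0 < t ^ (4 * b) := Real.rpow_pos_of_pos ht _
  refine ⟨?_, by linarith⟩
  rcases min_le_iff.mp h4 with h | h
  · have : t ^ m ≤ t := by
      conv_rhs => rw [← Real.rpow_one t]
      exact Real.rpow_le_rpow_of_exponent_ge ht ht1 h
    linarith
  · rcases min_le_iff.mp h with h | h
    · have : t ^ m ≤ t ^ (4 * a) := Real.rpow_le_rpow_of_exponent_ge ht ht1 h
      linarith
    · have : t ^ m ≤ t ^ (4 * b) := Real.rpow_le_rpow_of_exponent_ge ht ht1 h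
      linarith

/-- the small parameters -/
structure Sm (a b c t : ℝ) : Prop where
  pos : 0 < t
  le1 : t ≤ 1
  h1 : 432 * t ^ (3 * c - a - b) ≤ 1
  h2 : 6 * t ^ c ≤ 1

theorem sm_ev {a b c : ℝ} (hc0 : 0 < c) (hc : a + b < 3 * c) :
    ∀ᶠ t in 𝓝[>] (0 : ℝ), Sm a b c t := by
  have gen : ∀ (δ M : ℝ), 0 < δ → 0 < M → ∀ᶠ t in 𝓝[>] (0 : ℝ), M * t ^ δ ≤ 1 := by
    intro δ M hδ hM
    have h1 : Tendsto (fun t : ℝ => M * t ^ δ) (𝓝[>] 0) (𝓝 (M * 0 ^ δ)) :=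
      (((Real.continuousAt_rpow_const 0 δ (Or.inr hδ.le)).tendsto).const_mul M).mono_left
        nhdsWithin_le_nhds
    rw [Real.zero_rpow hδ.ne', mul_zero] at h1
    exact (h1.eventually (gt_mem_nhds one_pos)).mono fun t ht => ht.le
  have h0 : ∀ᶠ t in 𝓝[>] (0 : ℝ), 0 < t ∧ t ≤ 1 := by
    have : Set.Ioc (0:ℝ) 1 ∈ 𝓝[>] (0 : ℝ) := Ioc_mem_nhdsGT one_pos
    exact this
  filter_upwards [h0, gen (3 * c - a - b) 432 (by linarith) (by norm_num), gen c 6 hc0 (by norm_num)]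
    with t h0 h1 h2
  exact ⟨h0.1, h0.2, h1, h2⟩

theorem rpow3 {t : ℝ} (ht : 0 < t) (a b c : ℝ) :
    (t ^ c) ^ 3 = t ^ (3 * c - a - b) * (t ^ a * t ^ b) := by
  rw [← Real.rpow_add ht, ← Real.rpow_add ht, ← Real.rpow_natCast, ← Real.rpow_mul ht.le]
  congr 1
  push_cast
  ring

theorem exists_Z {a b c t : ℝ} (h1 : a + b + c ≤ 4 * a) (h2 : a + b + c ≤ 4 * b)
    (h3 : a + b + c ≤ 1) (h4 : min 1 (min (4 * a) (4 * b)) ≤ a + b + c) (ht : Sm a b c t) :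
    ∃ Z : ℝ, t ^ c ≤ Z ∧ Z ≤ 6 * t ^ c ∧ t ^ a * t ^ b * Z = t + (t ^ a) ^ 4 + (t ^ b) ^ 4 + Z ^ 4 := by
  obtain ⟨b1, b2⟩ := EE_bounds h1 h2 h3 h4 ht.pos ht.le1
  have hm : t ^ (a + b + c) = t ^ a * t ^ b * t ^ c := by
    rw [Real.rpow_add ht.pos, Real.rpow_add ht.pos]
  have pa : 0 < t ^ a := Real.rpow_pos_of_pos ht.pos _
  have pb : 0 < t ^ b := Real.rpow_pos_of_pos ht.pos _
  have pc : 0 < t ^ c := Real.rpow_pos_of_pos ht.pos _
  have pab : 0 < t ^ a * t ^ b := mul_pos pa pb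
  set w := t ^ a * t ^ b with hw
  set s := EE a b t / w with hs
  have hE : EE a b t = w * s := by rw [hs, mul_div_cancel₀ _ pab.ne']
  rw [hm, hE] at b1 b2
  have s1 : t ^ c ≤ s := le_of_mul_le_mul_left b1 pab
  have s2 : s ≤ 3 * t ^ c := by
    have : w * s ≤ w * (3 * t ^ c) := by linarith
    exact le_of_mul_le_mul_left this pab
  have s0 : 0 < s := lt_of_lt_of_le pc s1
  have s3 : 16 * s ^ 3 ≤ w := by
    calc 16 * s ^ 3 ≤ 16 * (3 * t ^ c) ^ 3 := by gcongr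
      _ = (432 * t ^ (3 * c - a - b)) * w := by
          rw [mul_pow, rpow3 ht.pos a b c]; ring
      _ ≤ 1 * w := by gcongr; exact ht.h1
      _ = w := one_mul _
  have hcont : ContinuousOn (fun Z : ℝ => w * Z - EE a b t - Z ^ 4) (Set.Icc s (2 * s)) := by
    fun_prop
  have hivt := intermediate_value_Icc (by linarith : s ≤ 2 * s) hcont
  have hmem : (0 : ℝ) ∈ Set.Icc (w * s - EE a b t - s ^ 4)
      (w * (2 * s) - EE a b t - (2 * s) ^ 4) := by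
    constructor
    · rw [hE]
      have : 0 ≤ s ^ 4 := by positivity
      linarith
    · rw [hE]
      have : 0 ≤ s * (w - 16 * s ^ 3) := mul_nonneg s0.le (by linarith)
      nlinarith
  obtain ⟨Z, hZ, hZ0⟩ := hivt hmem
  refine ⟨Z, le_trans s1 hZ.1, by linarith [hZ.2], ?_⟩
  simp only at hZ0
  have : EE a b t = t + (t ^ a) ^ 4 + (t ^ b) ^ 4 := rfl
  linarith

theorem approx {a b c t Z : ℝ} (ht : Sm a b c t) (h1 : t ^ c ≤ Z) (h2 : Z ≤ 6 * t ^ c)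
    (h3 : t ^ a * t ^ b * Z = t + (t ^ a) ^ 4 + (t ^ b) ^ 4 + Z ^ 4) (j : ℕ) :
    0 ≤ zj (t ^ a) (t ^ b) t j ∧ zj (t ^ a) (t ^ b) t j ≤ Z ∧
      Z - zj (t ^ a) (t ^ b) t j ≤ 6 * 864 ^ j * t ^ (c + j * (3 * c - a - b)) := by
  have pa : 0 < t ^ a := Real.rpow_pos_of_pos ht.pos _
  have pb : 0 < t ^ b := Real.rpow_pos_of_pos ht.pos _
  have pc : 0 < t ^ c := Real.rpow_pos_of_pos ht.pos _
  have pab : 0 < t ^ a * t ^ b := mul_pos pa pb
  have hZ0 : 0 < Z := lt_of_lt_of_le pc h1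
  induction j with
  | zero => simpa [zj, hZ0.le] using h2
  | succ j ih =>
    obtain ⟨i1, i2, i3⟩ := ih
    set ζ := zj (t ^ a) (t ^ b) t j with hζ
    have e : t ^ a * t ^ b * zj (t ^ a) (t ^ b) t (j+1) = t + (t ^ a) ^ 4 + (t ^ b) ^ 4 + ζ ^ 4 := by
      rw [zj, ← hζ, mul_div_cancel₀ _ pab.ne']
    have p4 : ζ ^ 4 ≤ Z ^ 4 := by gcongr
    refine ⟨?_, ?_, ?_⟩
    · rw [zj, ← hζ]
      have := ht.pos
      positivity
    · have : t ^ a * t ^ b * zj (t ^ a) (t ^ b) t (j+1) ≤ t ^ a * t ^ b * Z := by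
        rw [e, h3]; linarith
      exact le_of_mul_le_mul_left this pab
    · have e2 : t ^ a * t ^ b * (Z - zj (t ^ a) (t ^ b) t (j+1)) = Z ^ 4 - ζ ^ 4 := by
        rw [mul_sub, e, h3]; ring
      have e3 : Z ^ 4 - ζ ^ 4 ≤ 4 * Z ^ 3 * (Z - ζ) := by
        have hd : 0 ≤ Z - ζ := by linarith
        have : Z ^ 4 - ζ ^ 4 = (Z ^ 3 + Z ^ 2 * ζ + Z * ζ ^ 2 + ζ ^ 3) * (Z - ζ) := by ring
        rw [this]
        apply mul_le_mul_of_nonneg_right _ hd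
        have q1 : Z ^ 2 * ζ ≤ Z ^ 2 * Z := by gcongr
        have q2 : Z * ζ ^ 2 ≤ Z * Z ^ 2 := by gcongr
        have q3 : ζ ^ 3 ≤ Z ^ 3 := by gcongr
        nlinarith
      have e4 : 4 * Z ^ 3 * (Z - ζ) ≤ 4 * (6 * t ^ c) ^ 3 *
          (6 * 864 ^ j * t ^ (c + j * (3 * c - a - b))) := by
        have hd : 0 ≤ Z - ζ := by linarith
        gcongr
      have e5 : 4 * (6 * t ^ c) ^ 3 * (6 * 864 ^ j * t ^ (c + j * (3 * c - a - b))) =
          t ^ a * t ^ b * (6 * 864 ^ (j+1) * t ^ (c + ((j+1 : ℕ) : ℝ) * (3 * c - a - b))) := by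
        have : t ^ (c + ((j+1 : ℕ) : ℝ) * (3 * c - a - b)) =
            t ^ (c + j * (3 * c - a - b)) * t ^ (3 * c - a - b) := by
          rw [← Real.rpow_add ht.pos]
          congr 1
          push_cast
          ring
        rw [this, mul_pow, rpow3 ht.pos a b c]
        ring
      have : t ^ a * t ^ b * (Z - zj (t ^ a) (t ^ b) t (j+1)) ≤
          t ^ a * t ^ b * (6 * 864 ^ (j+1) * t ^ (c + ((j+1 : ℕ) : ℝ) * (3 * c - a - b))) := by
        rw [e2, ← e5]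
        linarith
      exact le_of_mul_le_mul_left this pab

theorem mono_bound {a b : ℝ} (Φ : MP) (R : ℝ) (h : ∀ s ∈ Φ.support, R ≤ s 0 * a + s 1 * b + s 2)
    {t : ℝ} (ht : 0 < t) (ht1 : t ≤ 1) :
    |aeval ![t ^ a, t ^ b, t] Φ| ≤ (∑ s ∈ Φ.support, |algebraMap ℚ ℝ (Φ.coeff s)|) * t ^ R := by
  rw [aeval_def, eval₂_eq', Finset.sum_mul]
  refine le_trans (Finset.abs_sum_le_sum_abs _ _) (Finset.sum_le_sum ?_)
  intro s hs
  rw [abs_mul]
  apply mul_le_mul_of_nonneg_left _ (abs_nonneg _)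
  rw [Fin.prod_univ_three]
  simp only [Matrix.cons_val_zero, Matrix.cons_val_one, Matrix.cons_val]
  have e : (t ^ a) ^ s 0 * (t ^ b) ^ s 1 * t ^ s 2 = t ^ ((s 0 : ℝ) * a + s 1 * b + s 2) := by
    rw [Real.rpow_add ht, Real.rpow_add ht, Real.rpow_natCast, mul_comm (s 0 : ℝ), Real.rpow_mul ht.le,
      Real.rpow_natCast, mul_comm (s 1 : ℝ), Real.rpow_mul ht.le, Real.rpow_natCast]
  rw [e, abs_of_pos (Real.rpow_pos_of_pos ht _)]
  exact Real.rpow_le_rpow_of_exponent_ge ht ht1 (h s hs)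

end Run7.h483.Arc

namespace Run7.h483

open MvPolynomial Filter Topology Asymptotics Run7.h405 Run7.h483.Arc

theorem arc_bound {K : Type*} [Field K] [CharZero K] (v : AddValuation K (WithTop ℝ))
    (hQ : ∀ c : ℚ, c ≠ 0 → v (c : K) = 0) (x y z l : K) (a b c : ℝ)
    (hx : v x = (a : ℝ)) (hy : v y = (b : ℝ)) (hz : v z = (c : ℝ)) (hl : v l = (1 : ℝ))
    (ha : 0 < a) (hb : 0 < b) (hc : a + b < 3 * c)
    (hrel : x * y * z = l + x ^ 4 + y ^ 4 + z ^ 4)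
    (hmono : ∀ h : MP, ∀ s ∈ h.support,
      v (aeval ![x, y, l] h) ≤ ((s 0 * a + s 1 * b + s 2 : ℝ) : WithTop ℝ)) :
    ∃ Z : ℝ → ℝ, (∀ᶠ t in 𝓝[>] (0 : ℝ), 0 < Z t ∧
        t ^ a * t ^ b * Z t = t + (t ^ a) ^ 4 + (t ^ b) ^ 4 + (Z t) ^ 4) ∧
      (Z =Θ[𝓝[>] (0 : ℝ)] fun t => t ^ c) ∧
      ∀ (F : MP) (r : ℝ), ((r : ℝ) : WithTop ℝ) ≤ v (aeval ![x, y, z] F) →
        (fun t : ℝ => aeval ![t ^ a, t ^ b, Z t] F) =O[𝓝[>] (0 : ℝ)] fun t => t ^ r := by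
  classical
  have hc0 : 0 < c := by linarith
  obtain ⟨h1, h2, h3, h4⟩ := c_min v x y z l a b c hx hy hz hl hc hrel hmono
  let Z : ℝ → ℝ := fun t => if h : ∃ Z : ℝ, t ^ c ≤ Z ∧ Z ≤ 6 * t ^ c ∧
      t ^ a * t ^ b * Z = t + (t ^ a) ^ 4 + (t ^ b) ^ 4 + Z ^ 4 then h.choose else 0
  have hZ : ∀ t, Sm a b c t → t ^ c ≤ Z t ∧ Z t ≤ 6 * t ^ c ∧
      t ^ a * t ^ b * Z t = t + (t ^ a) ^ 4 + (t ^ b) ^ 4 + Z t ^ 4 := by
    intro t ht
    have h := exists_Z h1 h2 h3 h4 ht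
    have e : Z t = h.choose := by simp only [Z]; rw [dif_pos h]
    rw [e]
    exact h.choose_spec
  have hev := sm_ev (a := a) (b := b) hc0 hc
  have hxne : x ≠ 0 := by
    rintro rfl; rw [AddValuation.map_zero] at hx; exact WithTop.top_ne_coe hx
  have hyne : y ≠ 0 := by
    rintro rfl; rw [AddValuation.map_zero] at hy; exact WithTop.top_ne_coe hy
  have hxy : x * y ≠ 0 := mul_ne_zero hxne hyne
  refine ⟨Z, ?_, ⟨?_, ?_⟩, ?_⟩
  · filter_upwards [hev] with t ht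
    obtain ⟨z1, z2, z3⟩ := hZ t ht
    exact ⟨lt_of_lt_of_le (Real.rpow_pos_of_pos ht.pos _) z1, z3⟩
  · apply IsBigO.of_bound 6
    filter_upwards [hev] with t ht
    obtain ⟨z1, z2, z3⟩ := hZ t ht
    have pc := Real.rpow_pos_of_pos ht.pos c
    rw [Real.norm_of_nonneg (le_trans pc.le z1), Real.norm_of_nonneg pc.le]
    exact z2
  · apply IsBigO.of_bound 1
    filter_upwards [hev] with t ht
    obtain ⟨z1, z2, z3⟩ := hZ t ht
    have pc := Real.rpow_pos_of_pos ht.pos c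
    rw [Real.norm_of_nonneg (le_trans pc.le z1), Real.norm_of_nonneg pc.le, one_mul]
    exact z1
  · intro F r hr
    obtain ⟨j, hj⟩ : ∃ j : ℕ, r ≤ c + j * (3 * c - a - b) := by
      obtain ⟨j, hj⟩ := exists_nat_ge ((r - c) / (3 * c - a - b))
      refine ⟨j, ?_⟩
      rw [div_le_iff₀ (by linarith)] at hj
      linarith
    obtain ⟨v1, v2⟩ := v_zj v x y z l a b c hx hy hz hc hxy hrel j
    set d := F.support.sup (fun s => s 2) with hd
    have hd' : ∀ s ∈ F.support, s 2 ≤ d := fun s hs => Finset.le_sup (f := fun s => s 2) hs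
    have nx : 0 ≤ v x := by rw [hx]; exact_mod_cast ha.le
    have ny : 0 ≤ v y := by rw [hy]; exact_mod_cast hb.le
    have nz : 0 ≤ v z := by rw [hz]; exact_mod_cast hc0.le
    have nzj : 0 ≤ v (zj x y l j) := le_trans (by exact_mod_cast hc0.le) v2
    have v3 : ((r : ℝ) : WithTop ℝ) ≤ v (aeval ![x, y, zj x y l j] F) := by
      have e : aeval ![x, y, zj x y l j] F = aeval ![x, y, z] F -
          (aeval ![x, y, z] F - aeval ![x, y, zj x y l j] F) := by ring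
      rw [e]
      apply AddValuation.map_le_sub _ hr
      refine le_trans ?_ (v_diff v hQ x y z (zj x y l j) nx ny nz nzj F)
      exact le_trans (by exact_mod_cast hj) v1
    set Φ := Phi (NN j) (mx j) d F with hΦ
    set M := mx j * d with hM
    have e1 := Phi_eq (NN j) (mx j) d F hd' x y l (zj x y l j) (zj_N x y l hxy j)
    have v4 : ((r + M * (a + b) : ℝ) : WithTop ℝ) ≤ v (aeval ![x, y, l] Φ) := by
      rw [hΦ, ← e1, AddValuation.map_mul, AddValuation.map_pow, AddValuation.map_mul, hx, hy,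
        ← WithTop.coe_add, ← WithTop.coe_nsmul, nsmul_eq_mul, add_comm r, WithTop.coe_add]
      exact add_le_add le_rfl v3
    have hR : ∀ s ∈ Φ.support, r + M * (a + b) ≤ s 0 * a + s 1 * b + s 2 := fun s hs =>
      WithTop.coe_le_coe.mp (le_trans v4 (hmono Φ s hs))
    obtain ⟨C, hC0, hC⟩ := r_diff F
    set Cs := ∑ s ∈ Φ.support, |algebraMap ℚ ℝ (Φ.coeff s)| with hCs
    apply IsBigO.of_bound (Cs + C * (6 * 864 ^ j))
    filter_upwards [hev] with t ht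
    obtain ⟨z1, z2, z3⟩ := hZ t ht
    obtain ⟨a1, a2, a3⟩ := approx ht z1 z2 z3 j
    have pa : 0 < t ^ a := Real.rpow_pos_of_pos ht.pos _
    have pb : 0 < t ^ b := Real.rpow_pos_of_pos ht.pos _
    have pr : 0 < t ^ r := Real.rpow_pos_of_pos ht.pos _
    have pab : 0 < t ^ a * t ^ b := mul_pos pa pb
    have e2 := Phi_eq (NN j) (mx j) d F hd' (t ^ a) (t ^ b) t (zj (t ^ a) (t ^ b) t j)
      (zj_N (t ^ a) (t ^ b) t pab.ne' j)
    have b1 := mono_bound Φ _ hR ht.pos ht.le1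
    rw [← hCs] at b1
    have b2 : |aeval ![t ^ a, t ^ b, zj (t ^ a) (t ^ b) t j] F| ≤ Cs * t ^ r := by
      rw [hΦ, ← e2, abs_mul, abs_of_pos (pow_pos pab _), ← hM] at b1
      have e3 : t ^ (r + M * (a + b)) = (t ^ a * t ^ b) ^ M * t ^ r := by
        rw [Real.rpow_add ht.pos, mul_comm (M : ℝ), Real.rpow_mul ht.pos.le, Real.rpow_natCast,
          Real.rpow_add ht.pos]
        ring
      rw [e3] at b1
      have : (t ^ a * t ^ b) ^ M * |aeval ![t ^ a, t ^ b, zj (t ^ a) (t ^ b) t j] F| ≤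
          (t ^ a * t ^ b) ^ M * (Cs * t ^ r) := by linarith
      exact le_of_mul_le_mul_left this (pow_pos pab _)
    have hta : t ^ a ≤ 1 := Real.rpow_le_one ht.pos.le ht.le1 ha.le
    have htb : t ^ b ≤ 1 := Real.rpow_le_one ht.pos.le ht.le1 hb.le
    have hZ1 : Z t ≤ 1 := le_trans z2 ht.h2
    have hZ0 : 0 ≤ Z t := le_trans a1 a2
    have b3 := hC (t ^ a) (t ^ b) (Z t) (zj (t ^ a) (t ^ b) t j) pa.le hta pb.le htb hZ0 hZ1 a1
      (le_trans a2 hZ1)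
    rw [abs_of_nonneg (by linarith : 0 ≤ Z t - zj (t ^ a) (t ^ b) t j)] at b3
    have b4 : t ^ (c + j * (3 * c - a - b)) ≤ t ^ r :=
      Real.rpow_le_rpow_of_exponent_ge ht.pos ht.le1 hj
    rw [Real.norm_eq_abs, Real.norm_of_nonneg pr.le]
    calc |aeval ![t ^ a, t ^ b, Z t] F| =
          |aeval ![t ^ a, t ^ b, zj (t ^ a) (t ^ b) t j] F + (aeval ![t ^ a, t ^ b, Z t] F -
            aeval ![t ^ a, t ^ b, zj (t ^ a) (t ^ b) t j] F)| := by congr 1; ring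
      _ ≤ _ := abs_add_le _ _
      _ ≤ Cs * t ^ r + C * (6 * 864 ^ j * t ^ r) := by
          apply add_le_add b2
          refine le_trans b3 (mul_le_mul_of_nonneg_left (le_trans a3 ?_) hC0)
          gcongr
      _ = (Cs + C * (6 * 864 ^ j)) * t ^ r := by ring

end Run7.h483
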