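import Mathlib
import Pool.Agent.Run7.h405.Base

/-! MP_740c6d_ag, piece C: top forms. -/

namespace Run7.h483.GG

open MvPolynomial Run7.h405

theorem D_inv (n : ℕ) : 0 < D n ∧ 0 < D (n+1) ∧ D (n+1) ≤ D (n+2) ∧ D n ≤ 3 * D (n+1) := by
  induction n with
  | zero => simp [D]
  | succ n ih =>
    obtain ⟨h0, h1, h2, h3⟩ := ih
    have e : D (n+3) = 4 * D (n+1) * D (n+2) - D n := by rw [D]
    have h4 : 0 < D (n+2) := lt_of_lt_of_le h1 h2
    have h5 : D (n+2) ≤ D (n+3) := by
      rw [e]
      apply Nat.le_sub_of_add_le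
      nlinarith
    refine ⟨h1, h4, h5, ?_⟩
    exact le_trans h2 (Nat.le_mul_of_pos_left _ (by norm_num))

theorem D_pos (n : ℕ) : 0 < D n := (D_inv n).1

theorem D_rec (n : ℕ) : D (n+3) + D n = 4 * D (n+1) * D (n+2) := by
  obtain ⟨h0, h1, h2, h3⟩ := D_inv n
  have e : D (n+3) = 4 * D (n+1) * D (n+2) - D n := by rw [D]
  have : D n ≤ 4 * D (n+1) * D (n+2) := by nlinarith
  omega

/-- grading map -/
noncomputable def sg : MP →ₐ[ℚ] Polynomial MP := aeval fun i => Polynomial.C (X i) * Polynomial.X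

theorem sg_mono (s : Fin 3 →₀ ℕ) (c : ℚ) :
    sg (monomial s c) = Polynomial.C (monomial s c) * Polynomial.X ^ (s.degree) := by
  rw [sg, aeval_monomial, Finsupp.prod_fintype _ _ (by simp), monomial_eq,
    Finsupp.prod_fintype _ _ (by simp)]
  have h : s.degree = s 0 + s 1 + s 2 := by
    rw [Finsupp.degree_eq_sum, Fin.sum_univ_three]
  rw [h, Fin.prod_univ_three, Fin.prod_univ_three]
  have h2 : (algebraMap ℚ (Polynomial MP)) c = Polynomial.C (C c) := by
    rw [IsScalarTower.algebraMap_apply ℚ MP (Polynomial MP)]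
    rfl
  rw [h2]
  simp only [map_mul, map_pow]
  ring

theorem coeff_sg (f : MP) (d : ℕ) (s : Fin 3 →₀ ℕ) :
    ((sg f).coeff d).coeff s = if s.degree = d then f.coeff s else 0 := by
  induction f using MvPolynomial.induction_on' with
  | monomial t c =>
    rw [sg_mono, Polynomial.coeff_C_mul, Polynomial.coeff_X_pow, coeff_monomial]
    by_cases h : d = t.degree
    · subst h
      rw [if_pos rfl, mul_one, coeff_monomial]
      by_cases h2 : t = s
      · subst h2; simp
      · simp [h2]
    · rw [if_neg h, mul_zero, coeff_zero]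
      by_cases h2 : t = s
      · subst h2
        rw [if_neg (Ne.symm h)]
      · simp [h2]
  | add p q hp hq =>
    rw [map_add, Polynomial.coeff_add, coeff_add, hp, hq, coeff_add]
    split_ifs <;> simp

theorem td_le (f : MP) (N : ℕ) (h : (sg f).natDegree ≤ N) : f.totalDegree ≤ N := by
  rw [totalDegree]
  apply Finset.sup_le
  intro s hs
  by_contra hcon
  rw [not_le] at hcon
  have h1 := coeff_sg f s.degree s
  rw [if_pos rfl, Polynomial.coeff_eq_zero_of_natDegree_lt, coeff_zero] at h1
  · exact (mem_support_iff.mp hs) h1.symm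
  · exact lt_of_le_of_lt h hcon

theorem sg_inj : Function.Injective sg := by
  rw [injective_iff_map_eq_zero]
  intro f hf
  ext s
  have h1 := coeff_sg f s.degree s
  rw [hf, if_pos rfl] at h1
  simpa using h1.symm

/-- the point evaluation at the origin -/
noncomputable def ev : MP →+* ℚ := (aeval (fun _ : Fin 3 => (0 : ℚ))).toRingHom

theorem ev_X (i : Fin 3) : ev (X i) = 0 := by
  change aeval (fun _ : Fin 3 => (0 : ℚ)) (X i : MP) = 0
  rw [aeval_X]

theorem ev_coeff (f : MP) (d : ℕ) (hd : 0 < d) : ev ((sg f).coeff d) = 0 := by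
  have h : ∀ f : MP, (sg f).map ev = Polynomial.C (ev f) := by
    intro f
    induction f using MvPolynomial.induction_on with
    | C c =>
      rw [sg, aeval_C, IsScalarTower.algebraMap_apply ℚ MP (Polynomial MP)]
      simp [MvPolynomial.algebraMap_eq]
    | add p q hp hq => rw [map_add, Polynomial.map_add, hp, hq, map_add, map_add]
    | mul_X p i hp =>
      rw [map_mul, Polynomial.map_mul, hp, sg, aeval_X, Polynomial.map_mul, Polynomial.map_C,
        map_mul, ev_X]
      simp
  have h1 := congrArg (fun p => Polynomial.coeff p d) (h f)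
  simp only [Polynomial.coeff_map, Polynomial.coeff_C, hd.ne', if_false] at h1
  exact h1

theorem top_good {α β : ℕ} {P : MP} (h : Good α β P) (l u v : Polynomial MP)
    (hl : l.natDegree ≤ 4) (hu : u.natDegree ≤ 4 * α) (hv : v.natDegree ≤ 4 * β) :
    (aeval ![l, u, v] P).natDegree ≤ 4 * α * β ∧
    (aeval ![l, u, v] P).coeff (4 * α * β) =
      aeval ![l.coeff 4, u.coeff (4 * α), v.coeff (4 * β)] P := by
  have hC : ∀ c : ℚ, algebraMap ℚ (Polynomial MP) c = Polynomial.C (algebraMap ℚ MP c) := fun c =>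
    IsScalarTower.algebraMap_apply ℚ MP (Polynomial MP) c
  rw [aeval_def, aeval_def, eval₂_eq', eval₂_eq']
  have key : ∀ s ∈ P.support, 4 * α * β = s 0 * 4 + s 1 * (4 * α) + s 2 * (4 * β) := by
    intro s hs
    have := h.hom s hs
    calc 4 * α * β = 4 * (α * β) := by ring
      _ = 4 * (s 0 + α * s 1 + β * s 2) := by rw [this]
      _ = _ := by ring
  have kd : ∀ s : Fin 3 →₀ ℕ, (l ^ s 0).natDegree ≤ s 0 * 4 ∧ (u ^ s 1).natDegree ≤ s 1 * (4 * α) ∧
      (v ^ s 2).natDegree ≤ s 2 * (4 * β) := by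
    intro s
    exact ⟨Polynomial.natDegree_pow_le_of_le _ hl, Polynomial.natDegree_pow_le_of_le _ hu,
      Polynomial.natDegree_pow_le_of_le _ hv⟩
  constructor
  · apply Polynomial.natDegree_sum_le_of_forall_le
    intro s hs
    rw [key s hs, Fin.prod_univ_three, hC]
    refine le_trans (Polynomial.natDegree_C_mul_le _ _) ?_
    obtain ⟨k1, k2, k3⟩ := kd s
    refine le_trans (Polynomial.natDegree_mul_le) ?_
    refine add_le_add (le_trans (Polynomial.natDegree_mul_le) (add_le_add k1 k2)) k3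
  · rw [Polynomial.finsetSum_coeff]
    apply Finset.sum_congr rfl
    intro s hs
    rw [key s hs, Fin.prod_univ_three, Fin.prod_univ_three, hC, Polynomial.coeff_C_mul]
    obtain ⟨k1, k2, k3⟩ := kd s
    congr 1
    simp only [Matrix.cons_val_zero, Matrix.cons_val_one, Matrix.cons_val]
    rw [Polynomial.coeff_mul_add_eq_of_natDegree_le
      (le_trans (Polynomial.natDegree_mul_le) (add_le_add k1 k2)) k3,
      Polynomial.coeff_mul_add_eq_of_natDegree_le k1 k2, Polynomial.coeff_pow_of_natDegree_le hl,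
      Polynomial.coeff_pow_of_natDegree_le hu, Polynomial.coeff_pow_of_natDegree_le hv]

theorem good_e1 {α β : ℕ} {P : MP} (h : Good α β P) {S : Type*} [CommRing S] [Algebra ℚ S]
    (l u : S) : aeval ![l, u, 0] P = (l ^ α + u) ^ β := by
  have h1 := congrArg (aeval ![l, u, 0]) h.e1
  rw [map_pow, map_add, map_pow, aeval_X, aeval_X] at h1
  simp only [Matrix.cons_val_zero, Matrix.cons_val_one] at h1
  rw [← h1, ← AlgHom.comp_apply]
  congr 1
  apply MvPolynomial.algHom_ext
  intro i
  rw [AlgHom.comp_apply, aeval_X, aeval_X]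
  fin_cases i <;> simp

theorem good_e2 {α β : ℕ} {P : MP} (h : Good α β P) {S : Type*} [CommRing S] [Algebra ℚ S]
    (l v : S) : aeval ![l, 0, v] P = (l ^ β + v) ^ α := by
  have h1 := congrArg (aeval ![l, 0, v]) h.e2
  rw [map_pow, map_add, map_pow, aeval_X, aeval_X] at h1
  simp only [Matrix.cons_val_zero, Matrix.cons_val] at h1
  rw [← h1, ← AlgHom.comp_apply]
  congr 1
  apply MvPolynomial.algHom_ext
  intro i
  rw [AlgHom.comp_apply, aeval_X, aeval_X]
  fin_cases i <;> simp

/-! Krull. -/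

/-- The maximal ideal. -/
noncomputable def mm : Ideal MP := RingHom.ker ev

noncomputable def pj1 : MP →+* MP := (aeval ![(0 : MP), X 1, X 2]).toRingHom
noncomputable def pj2 : MP →+* MP := (aeval ![(0 : MP), 0, X 2]).toRingHom

theorem height_mm : (3 : ℕ∞) ≤ mm.height := by
  have hp1 : (RingHom.ker pj1).IsPrime := RingHom.ker_isPrime _
  have hp2 : (RingHom.ker pj2).IsPrime := RingHom.ker_isPrime _
  have hpm : mm.IsPrime := RingHom.ker_isPrime _
  have a10 : pj1 (X 0) = 0 := by
    change aeval ![(0 : MP), X 1, X 2] (X 0 : MP) = 0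
    rw [aeval_X]; simp
  have a11 : pj1 (X 1) = X 1 := by
    change aeval ![(0 : MP), X 1, X 2] (X 1 : MP) = X 1
    rw [aeval_X]; simp
  have a20 : pj2 (X 0) = 0 := by
    change aeval ![(0 : MP), 0, X 2] (X 0 : MP) = 0
    rw [aeval_X]; simp
  have a21 : pj2 (X 1) = 0 := by
    change aeval ![(0 : MP), 0, X 2] (X 1 : MP) = 0
    rw [aeval_X]; simp
  have a22 : pj2 (X 2) = X 2 := by
    change aeval ![(0 : MP), 0, X 2] (X 2 : MP) = X 2
    rw [aeval_X]; simp
  have c1 : pj2.comp pj1 = pj2 := by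
    have : ((aeval ![(0 : MP), 0, X 2]).comp (aeval ![(0 : MP), X 1, X 2]) : MP →ₐ[ℚ] MP) =
        aeval ![(0 : MP), 0, X 2] := by
      apply MvPolynomial.algHom_ext
      intro i
      rw [AlgHom.comp_apply, aeval_X]
      fin_cases i <;> simp
    exact congrArg AlgHom.toRingHom this
  have c2 : ev.comp pj2 = ev := by
    have : ((aeval (fun _ : Fin 3 => (0 : ℚ))).comp (aeval ![(0 : MP), 0, X 2]) : MP →ₐ[ℚ] ℚ) =
        aeval (fun _ : Fin 3 => (0 : ℚ)) := by
      apply MvPolynomial.algHom_ext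
      intro i
      rw [AlgHom.comp_apply, aeval_X]
      fin_cases i <;> simp
    exact congrArg AlgHom.toRingHom this
  have l01 : (⊥ : Ideal MP) < RingHom.ker pj1 := by
    rw [bot_lt_iff_ne_bot]
    intro h
    have : (X 0 : MP) ∈ RingHom.ker pj1 := a10
    rw [h, Ideal.mem_bot] at this
    exact X_ne_zero _ this
  have l12 : RingHom.ker pj1 < RingHom.ker pj2 := by
    apply lt_of_le_of_ne
    · intro f hf
      rw [RingHom.mem_ker] at hf ⊢
      rw [← c1, RingHom.comp_apply, hf, map_zero]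
    · intro h
      have : (X 1 : MP) ∈ RingHom.ker pj1 := h ▸ a21
      rw [RingHom.mem_ker, a11] at this
      exact X_ne_zero _ this
  have l2m : RingHom.ker pj2 < mm := by
    apply lt_of_le_of_ne
    · intro f hf
      rw [RingHom.mem_ker] at hf
      rw [mm, RingHom.mem_ker, ← c2, RingHom.comp_apply, hf, map_zero]
    · intro h
      have : (X 2 : MP) ∈ RingHom.ker pj2 := h ▸ ev_X 2
      rw [RingHom.mem_ker, a22] at this
      exact X_ne_zero _ this
  have h1 := Ideal.height_add_one_le_of_lt_of_isPrime l01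
  have h2 := Ideal.height_add_one_le_of_lt_of_isPrime l12
  have h3 := Ideal.height_add_one_le_of_lt_of_isPrime l2m
  calc (3 : ℕ∞) = 0 + 1 + 1 + 1 := by norm_num
    _ ≤ (⊥ : Ideal MP).height + 1 + 1 + 1 := by gcongr; exact zero_le
    _ ≤ (RingHom.ker pj1).height + 1 + 1 := by gcongr
    _ ≤ (RingHom.ker pj2).height + 1 := by gcongr
    _ ≤ _ := h3

theorem krull (f g : MP) (hf : f ∈ mm) (hg : g ∈ mm) :
    ∃ p : Ideal MP, p.IsPrime ∧ f ∈ p ∧ g ∈ p ∧ ¬ mm ≤ p := by
  by_contra hcon
  push Not at hcon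
  have hpm : mm.IsPrime := RingHom.ker_isPrime _
  have hmin : mm ∈ (Ideal.span ({f, g} : Set MP)).minimalPrimes := by
    refine ⟨⟨hpm, ?_⟩, ?_⟩
    · rw [Ideal.span_le]
      intro x hx
      rcases hx with h | h
      · rw [h]; exact hf
      · rw [Set.mem_singleton_iff] at h; rw [h]; exact hg
    · rintro q ⟨hq, hq2⟩ _
      exact hcon q hq (hq2 (Ideal.subset_span (by simp))) (hq2 (Ideal.subset_span (by simp)))
  have h1 := Ideal.height_le_card_of_mem_minimalPrimes_span (Set.toFinite _) hmin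
  have h2 : (({f, g} : Set MP).ncard : ℕ∞) ≤ 2 := by
    have := Set.ncard_insert_le f ({g} : Set MP)
    rw [Set.ncard_singleton] at this
    exact_mod_cast this
  have h3 := le_trans height_mm (le_trans h1 h2)
  exact absurd h3 (by norm_num)

end Run7.h483.GG
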