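import Mathlib
import Pool.Agent.Run7.h405.Base
import Pool.Agent.Run7.h483.G1

/-! MP_740c6d_ag, piece C: the recursion. -/

namespace Run7.h483.GG

open MvPolynomial Run7.h405

/-- quotient -/
noncomputable def qt (w a : MP) : MP := by
  classical
  exact if h : a ∣ w then h.choose else 0

theorem qt_spec {w a : MP} (h : a ∣ w) : qt w a * a = w := by
  rw [qt, dif_pos h, mul_comm]
  exact h.choose_spec.symm

noncomputable def Gf (P : ℕ → MP) : ℕ → MP
  | 0 => X 0 * X 1 - X 2 ^ 3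
  | 1 => X 0
  | 2 => X 1
  | (n+3) => qt (aeval ![lam ℚ, Gf P (n+1) ^ 4, Gf P (n+2) ^ 4] (P n)) (Gf P n)

/-- the right side -/
noncomputable def W (P G : ℕ → MP) (n : ℕ) : MP :=
  aeval ![lam ℚ, G (n+1) ^ 4, G (n+2) ^ 4] (P n)

theorem Gf_step (P : ℕ → MP) (n : ℕ) (h : Gf P n ∣ W P (Gf P) n) :
    Gf P (n+3) * Gf P n = W P (Gf P) n := by
  rw [Gf]
  exact qt_spec h

/-- `Λ` -/
noncomputable def La : MP := - X 0 ^ 4 - X 1 ^ 4 - X 2 ^ 4

theorem sg_X (i : Fin 3) : sg (X i) = Polynomial.C (X i) * Polynomial.X := by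
  rw [sg, aeval_X]

theorem sg_lam : sg (lam ℚ) = Polynomial.C La * Polynomial.X ^ 4 +
    Polynomial.C (X 0 * X 1 * X 2) * Polynomial.X ^ 3 := by
  rw [lam, La]
  simp only [map_sub, map_mul, map_pow, sg_X, map_neg]
  ring

theorem sg_lam_deg : (sg (lam ℚ)).natDegree ≤ 4 := by
  rw [sg_lam]
  apply Polynomial.natDegree_add_le_of_degree_le
  · exact Polynomial.natDegree_C_mul_X_pow_le _ _
  · exact le_trans (Polynomial.natDegree_C_mul_X_pow_le _ _) (by norm_num)

theorem sg_lam_coeff : (sg (lam ℚ)).coeff 4 = La := by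
  rw [sg_lam, Polynomial.coeff_add, Polynomial.coeff_C_mul_X_pow, Polynomial.coeff_C_mul_X_pow]
  simp

/-- the top form of degree `D n` -/
noncomputable def Hh (G : ℕ → MP) (n : ℕ) : MP := (sg (G n)).coeff (D n)

/-- the data for level `N` -/
structure Lev (P G : ℕ → MP) (N : ℕ) : Prop where
  sys : ∀ n, Good (D (n+1)) (D (n+2)) (P n)
  g0 : G 0 = X 0 * X 1 - X 2 ^ 3
  g1 : G 1 = X 0
  g2 : G 2 = X 1
  rel : ∀ m, m < N → G (m+3) * G m = W P G m

theorem La_mem {p : Ideal MP} (hp : p.IsPrime) (h : La ∈ p) (h0 : X 0 ∈ p) (h1 : X 1 ∈ p) :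
    mm ≤ p := by
  have h2 : (X 2 : MP) ∈ p := by
    apply hp.mem_of_pow_mem 4
    have : (X 2 : MP) ^ 4 = - La - X 0 * X 0 ^ 3 - X 1 * X 1 ^ 3 := by rw [La]; ring
    rw [this]
    exact p.sub_mem (p.sub_mem (p.neg_mem h) (p.mul_mem_right _ h0)) (p.mul_mem_right _ h1)
  intro f hf
  have key : ∀ f : MP, f - C (ev f) ∈ p := by
    intro f
    induction f using MvPolynomial.induction_on with
    | C c =>
      have : ev (C c) = c := by
        change aeval (fun _ : Fin 3 => (0 : ℚ)) (C c : MP) = c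
        rw [aeval_C]; rfl
      rw [this, sub_self]
      exact p.zero_mem
    | add a b ha hb =>
      have : a + b - C (ev (a + b)) = (a - C (ev a)) + (b - C (ev b)) := by
        rw [map_add, map_add]; ring
      rw [this]
      exact p.add_mem ha hb
    | mul_X a i ha =>
      rw [map_mul, ev_X, mul_zero, map_zero, sub_zero]
      apply p.mul_mem_left
      fin_cases i
      · exact h0
      · exact h1
      · exact h2
  have := key f
  rw [mm, RingHom.mem_ker] at hf
  rwa [hf, map_zero, sub_zero] at this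

theorem Hh1 {G : ℕ → MP} (g1 : G 1 = X 0) : Hh G 1 = X 0 := by
  rw [Hh, g1, sg_X]
  simp [D]

theorem Hh2 {G : ℕ → MP} (g2 : G 2 = X 1) : Hh G 2 = X 1 := by
  rw [Hh, g2, sg_X]
  simp [D]

theorem Hh0 {G : ℕ → MP} (g0 : G 0 = X 0 * X 1 - X 2 ^ 3) : Hh G 0 = - X 2 ^ 3 := by
  rw [Hh, g0]
  have : sg (X 0 * X 1 - X 2 ^ 3) = Polynomial.C (- X 2 ^ 3) * Polynomial.X ^ 3 +
      Polynomial.C (X 0 * X 1) * Polynomial.X ^ 2 := by
    simp only [map_sub, map_mul, map_pow, sg_X, map_neg]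
    ring
  rw [this, Polynomial.coeff_add, Polynomial.coeff_C_mul_X_pow, Polynomial.coeff_C_mul_X_pow]
  simp [D]

/-- the top right-hand side -/
noncomputable def Wb (P G : ℕ → MP) (n : ℕ) : MP :=
  aeval ![La, Hh G (n+1) ^ 4, Hh G (n+2) ^ 4] (P n)

/-- descent modulo a prime. -/
theorem descend {α β : ℕ} {P : MP} (h : Good α β P) (hα : 0 < α) {p : Ideal MP} (hp : p.IsPrime)
    (l u v : MP) (hl : l ∈ p) (hv : v ∈ p) (hP : aeval ![l, u ^ 4, v ^ 4] P ∈ p) : u ∈ p := by
  have h1 : (Ideal.Quotient.mk p) (aeval ![l, u ^ 4, v ^ 4] P) =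
      aeval ![(Ideal.Quotient.mk p l), (Ideal.Quotient.mk p u) ^ 4, 0] P := by
    have : (Ideal.Quotient.mkₐ ℚ p).comp (aeval ![l, u ^ 4, v ^ 4]) =
        aeval ![(Ideal.Quotient.mk p l), (Ideal.Quotient.mk p u) ^ 4, 0] := by
      apply MvPolynomial.algHom_ext
      intro i
      rw [AlgHom.comp_apply, aeval_X, aeval_X]
      fin_cases i
      · simp
      · simp
      · simp only [Fin.reduceFinMk, Matrix.cons_val]
        rw [map_pow, Ideal.Quotient.mkₐ_eq_mk, Ideal.Quotient.eq_zero_iff_mem.mpr hv]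
        simp
    exact DFunLike.congr_fun this P
  rw [Ideal.Quotient.eq_zero_iff_mem.mpr hP, good_e1 h, Ideal.Quotient.eq_zero_iff_mem.mpr hl,
    zero_pow hα.ne', zero_add, ← map_pow, ← map_pow, eq_comm, Ideal.Quotient.eq_zero_iff_mem] at h1
  exact hp.mem_of_pow_mem _ (hp.mem_of_pow_mem _ h1)

/-- (C2) -/
theorem c2 {P G : ℕ → MP} {N : ℕ} (L : Lev P G N) {p : Ideal MP} (hp : p.IsPrime) (hL : La ∈ p)
    (M : ℕ) (hrel : ∀ j, j < M → Hh G (j+3) * Hh G j = Wb P G j) (i : ℕ) (hi : i ≤ M)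
    (h1 : Hh G (i+1) ∈ p) (h2 : Hh G (i+2) ∈ p) : mm ≤ p := by
  induction i with
  | zero =>
    rw [zero_add, Hh1 L.g1] at h1
    rw [zero_add, Hh2 L.g2] at h2
    exact La_mem hp hL h1 h2
  | succ i ih =>
    have h3 : Wb P G i ∈ p := by
      rw [← hrel i (by omega)]
      exact p.mul_mem_right _ h2
    have h4 : Hh G (i+1) ∈ p := descend (L.sys i) (D_pos _) hp La _ _ hL h1 h3
    exact ih (by omega) h4 h1

theorem La_mm : La ∈ mm := by
  rw [mm, RingHom.mem_ker, La]
  simp [ev_X]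

theorem Hh_mm (G : ℕ → MP) (n : ℕ) : Hh G n ∈ mm := by
  rw [mm, RingHom.mem_ker, Hh]
  exact ev_coeff _ _ (D_pos n)

theorem Wb_ne {P G : ℕ → MP} {N : ℕ} (L : Lev P G N)
    (M : ℕ) (hrel : ∀ j, j < M → Hh G (j+3) * Hh G j = Wb P G j) : Wb P G M ≠ 0 := by
  intro h0
  obtain ⟨p, hp, h1, h2, h3⟩ := krull La (Hh G (M+2)) La_mm (Hh_mm _ _)
  have h4 : Hh G (M+1) ∈ p := descend (L.sys M) (D_pos _) hp La _ _ h1 h2 (by
    change Wb P G M ∈ p
    rw [h0]; exact p.zero_mem)
  exact h3 (c2 L hp h1 M hrel M le_rfl h4 h2)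

theorem sg_W {P G : ℕ → MP} {N : ℕ} (L : Lev P G N) (m : ℕ)
    (h1 : (sg (G (m+1))).natDegree ≤ D (m+1)) (h2 : (sg (G (m+2))).natDegree ≤ D (m+2)) :
    (sg (W P G m)).natDegree ≤ 4 * D (m+1) * D (m+2) ∧
    (sg (W P G m)).coeff (4 * D (m+1) * D (m+2)) = Wb P G m := by
  have e : sg (W P G m) = aeval ![sg (lam ℚ), sg (G (m+1)) ^ 4, sg (G (m+2)) ^ 4] (P m) := by
    rw [W, ← AlgHom.comp_apply]
    congr 1
    apply MvPolynomial.algHom_ext
    intro i
    rw [AlgHom.comp_apply, aeval_X, aeval_X]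
    fin_cases i <;> simp
  have t := top_good (L.sys m) (sg (lam ℚ)) (sg (G (m+1)) ^ 4) (sg (G (m+2)) ^ 4) sg_lam_deg
    (Polynomial.natDegree_pow_le_of_le _ h1) (Polynomial.natDegree_pow_le_of_le _ h2)
  rw [e]
  refine ⟨t.1, ?_⟩
  rw [t.2, sg_lam_coeff, Polynomial.coeff_pow_of_natDegree_le h1,
    Polynomial.coeff_pow_of_natDegree_le h2]
  rfl

theorem tops {P G : ℕ → MP} {N : ℕ} (L : Lev P G N) (m : ℕ) (hm : m < N + 3) :
    (sg (G m)).natDegree ≤ D m ∧ Hh G m ≠ 0 ∧
      (∀ j, j + 3 = m → Hh G (j+3) * Hh G j = Wb P G j) := by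
  induction m using Nat.strong_induction_on with
  | _ m ih =>
    match m, hm, ih with
    | 0, _, _ =>
      refine ⟨?_, ?_, ?_⟩
      · rw [L.g0]
        have : sg (X 0 * X 1 - X 2 ^ 3) = Polynomial.C (- X 2 ^ 3) * Polynomial.X ^ 3 +
            Polynomial.C (X 0 * X 1) * Polynomial.X ^ 2 := by
          simp only [map_sub, map_mul, map_pow, sg_X, map_neg]
          ring
        rw [this]
        apply Polynomial.natDegree_add_le_of_degree_le
        · exact Polynomial.natDegree_C_mul_X_pow_le _ _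
        · exact le_trans (Polynomial.natDegree_C_mul_X_pow_le _ _) (by norm_num [D])
      · rw [Hh0 L.g0]
        exact neg_ne_zero.mpr (pow_ne_zero _ (X_ne_zero _))
      · intro j hj; omega
    | 1, _, _ =>
      refine ⟨?_, ?_, ?_⟩
      · rw [L.g1, sg_X]
        exact le_trans (Polynomial.natDegree_C_mul_le _ _) (by simp [D])
      · rw [Hh1 L.g1]; exact X_ne_zero _
      · intro j hj; omega
    | 2, _, _ =>
      refine ⟨?_, ?_, ?_⟩
      · rw [L.g2, sg_X]
        exact le_trans (Polynomial.natDegree_C_mul_le _ _) (by simp [D])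
      · rw [Hh2 L.g2]; exact X_ne_zero _
      · intro j hj; omega
    | (m+3), hm, ih =>
      obtain ⟨a0, b0, _⟩ := ih m (by omega) (by omega)
      obtain ⟨a1, b1, _⟩ := ih (m+1) (by omega) (by omega)
      obtain ⟨a2, b2, _⟩ := ih (m+2) (by omega) (by omega)
      have hrel : ∀ j, j < m → Hh G (j+3) * Hh G j = Wb P G j := fun j hj =>
        (ih (j+3) (by omega) (by omega)).2.2 j rfl
      have hW := Wb_ne L m hrel
      obtain ⟨w1, w2⟩ := sg_W L m a1 a2
      have hr : sg (G (m+3)) * sg (G m) = sg (W P G m) := by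
        rw [← map_mul, L.rel m (by omega)]
      have hD := D_rec m
      have hd0 : (sg (G m)).natDegree = D m :=
        le_antisymm a0 (Polynomial.le_natDegree_of_ne_zero b0)
      have hne0 : sg (G m) ≠ 0 := by
        intro h; rw [Hh, h] at b0; simp at b0
      have hneW : sg (W P G m) ≠ 0 := by
        intro h; rw [h] at w2; rw [← w2] at hW; simp at hW
      have hne3 : sg (G (m+3)) ≠ 0 := by
        intro h; rw [h, zero_mul] at hr; exact hneW hr.symm
      have a3 : (sg (G (m+3))).natDegree ≤ D (m+3) := by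
        have := Polynomial.natDegree_mul hne3 hne0
        rw [hr, hd0] at this
        omega
      have hc : Hh G (m+3) * Hh G m = Wb P G m := by
        rw [Hh, Hh, ← Polynomial.coeff_mul_add_eq_of_natDegree_le a3 a0, hr, hD, w2]
      refine ⟨a3, ?_, ?_⟩
      · intro h; rw [h, zero_mul] at hc; exact hW hc.symm
      · intro j hj
        have : j = m := by omega
        subst this
        exact hc

/-- (C4) -/
theorem c4 {P G : ℕ → MP} {N : ℕ} (L : Lev P G N) (i j : ℕ) (hi : i < N + 3) (hj : j < N + 3)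
    (hc : ∀ p : Ideal MP, p.IsPrime → La ∈ p → Hh G i ∈ p → Hh G j ∈ p → mm ≤ p) :
    IsRelPrime (G i) (lam ℚ ^ D j + G j ^ 4) := by
  obtain ⟨ai, bi, _⟩ := tops L i hi
  obtain ⟨aj, bj, _⟩ := tops L j hj
  intro d hd1 hd2
  have hGi : sg (G i) ≠ 0 := by
    intro h; rw [Hh, h] at bi; simp at bi
  have hdd : sg d ∣ sg (G i) := map_dvd sg hd1
  have hdne : sg d ≠ 0 := fun h => hGi (by rw [h] at hdd; exact zero_dvd_iff.mp hdd)
  by_cases hdeg : (sg d).natDegree = 0
  · have h1 := td_le d 0 hdeg.le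
    rw [Nat.le_zero, totalDegree_eq_zero_iff_eq_C] at h1
    rw [h1]
    apply IsUnit.map
    rw [isUnit_iff_ne_zero]
    intro h2
    rw [h2, map_zero] at h1
    rw [h1, map_zero] at hdne
    exact hdne rfl
  · exfalso
    set u := (sg d).leadingCoeff with hu
    have hum : u ∈ mm := by
      rw [mm, RingHom.mem_ker, hu, Polynomial.leadingCoeff]
      exact ev_coeff _ _ (Nat.pos_of_ne_zero hdeg)
    have gen : ∀ (F : Polynomial MP) (M : ℕ), sg d ∣ F → F.natDegree ≤ M → u ∣ F.coeff M := by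
      intro F M hF hM
      rcases Nat.lt_or_eq_of_le hM with h | h
      · rw [Polynomial.coeff_eq_zero_of_natDegree_lt h]; exact dvd_zero _
      · obtain ⟨e, he⟩ := hF
        rw [← h]
        change u ∣ F.leadingCoeff
        rw [he, Polynomial.leadingCoeff_mul]
        exact dvd_mul_right _ _
    have hu1 : u ∣ Hh G i := gen _ _ hdd ai
    have hE : (sg (lam ℚ ^ D j + G j ^ 4)).natDegree ≤ D j * 4 := by
      rw [map_add, map_pow, map_pow]
      apply Polynomial.natDegree_add_le_of_degree_le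
      · exact Polynomial.natDegree_pow_le_of_le _ sg_lam_deg
      · rw [mul_comm]; exact Polynomial.natDegree_pow_le_of_le _ aj
    have hE2 : (sg (lam ℚ ^ D j + G j ^ 4)).coeff (D j * 4) = La ^ D j + Hh G j ^ 4 := by
      rw [map_add, map_pow, map_pow, Polynomial.coeff_add,
        Polynomial.coeff_pow_of_natDegree_le sg_lam_deg, mul_comm (D j) 4,
        Polynomial.coeff_pow_of_natDegree_le aj, sg_lam_coeff]
      rfl
    have hu2 : u ∣ La ^ D j + Hh G j ^ 4 := by
      rw [← hE2]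
      exact gen _ _ (map_dvd sg hd2) hE
    obtain ⟨p, hp, h1, h2, h3⟩ := krull u La hum La_mm
    have k1 : Hh G i ∈ p := p.mem_of_dvd hu1 h1
    have k2 : La ^ D j + Hh G j ^ 4 ∈ p := p.mem_of_dvd hu2 h1
    have k3 : Hh G j ∈ p := by
      apply hp.mem_of_pow_mem 4
      have k4 : La ^ D j ∈ p := p.pow_mem_of_mem h2 _ (D_pos j)
      have := p.sub_mem k2 k4
      rwa [add_sub_cancel_left] at this
    exact h3 (hc p hp h2 k1 k3)

end Run7.h483.GG
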