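import Mathlib
import Pool.Agent.Run7.h405.Base
import Pool.Agent.Run7.h483.G2

/-! MP_740c6d_ag, piece C: existence of the sequence G. -/

namespace Run7.h483.GG

open MvPolynomial Run7.h405

theorem q_aeval (I : Ideal MP) (P l u v : MP) :
    (Ideal.Quotient.mk I) (aeval ![l, u, v] P) =
      aeval ![(Ideal.Quotient.mk I l), (Ideal.Quotient.mk I u), (Ideal.Quotient.mk I v)] P := by
  have : (Ideal.Quotient.mkₐ ℚ I).comp (aeval ![l, u, v]) =
      aeval ![(Ideal.Quotient.mk I l), (Ideal.Quotient.mk I u), (Ideal.Quotient.mk I v)] := by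
    apply MvPolynomial.algHom_ext
    intro i
    rw [AlgHom.comp_apply, aeval_X, aeval_X]
    fin_cases i <;> simp
  exact DFunLike.congr_fun this P

theorem dvd_step {P G : ℕ → MP} (hP : PSys P) (n : ℕ) (L : Lev P G (n+3)) :
    G (n+3) ∣ W P G (n+3) := by
  set I : Ideal MP := Ideal.span {G (n+3)} with hI
  set q := Ideal.Quotient.mk I with hq
  have hg : q (G (n+3)) = 0 := Ideal.Quotient.eq_zero_iff_mem.mpr (Ideal.mem_span_singleton_self _)
  have hrel : ∀ j, j < n + 3 → Hh G (j+3) * Hh G j = Wb P G j := fun j hj =>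
    (tops L (j+3) (by omega)).2.2 j rfl
  have H1 : q (G (n+4) ^ 4) * q (G (n+1) ^ 4) =
      ((q (lam ℚ)) ^ D (n+2) + q (G (n+2) ^ 4)) ^ (4 * D (n+3)) := by
    have h := congrArg q (L.rel (n+1) (by omega))
    rw [W, q_aeval, show n + 1 + 2 = n + 3 from rfl, map_pow q (G (n+3)), hg, zero_pow (by norm_num),
      good_e1 (L.sys (n+1)), map_mul] at h
    rw [map_pow, map_pow, ← mul_pow, show n + 4 = n + 1 + 3 from rfl, h, ← pow_mul,
      show n + 1 + 2 = n + 3 from rfl, mul_comm 4]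
  have H2 : q (G (n+5) ^ 4) * q (G (n+2) ^ 4) =
      ((q (lam ℚ)) ^ D (n+4) + q (G (n+4) ^ 4)) ^ (4 * D (n+3)) := by
    have h := congrArg q (L.rel (n+2) (by omega))
    rw [W, q_aeval, show n + 2 + 1 = n + 3 from rfl, map_pow q (G (n+3)), hg, zero_pow (by norm_num),
      good_e2 (L.sys (n+2)), map_mul] at h
    rw [map_pow, map_pow, ← mul_pow, show n + 5 = n + 2 + 3 from rfl, h, ← pow_mul,
      show n + 2 + 1 = n + 3 from rfl, mul_comm 4]
  have H3 : aeval ![q (lam ℚ), q (G (n+1) ^ 4), q (G (n+2) ^ 4)] (P n) = 0 := by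
    have h := congrArg q (L.rel n (by omega))
    rw [W, q_aeval, map_mul, hg, zero_mul] at h
    exact h.symm
  have K := hP.key n (MP ⧸ I) (q (lam ℚ)) (q (G (n+4) ^ 4)) (q (G (n+1) ^ 4)) (q (G (n+2) ^ 4))
    (q (G (n+5) ^ 4)) H1 H2
  rw [H3, mul_zero, ← q_aeval] at K
  have K2 : q ((lam ℚ ^ D (n+2) + G (n+2) ^ 4) ^ D (n+1) *
      (lam ℚ ^ D (n+4) + G (n+4) ^ 4) ^ D (n+2) *
      aeval ![lam ℚ, G (n+4) ^ 4, G (n+5) ^ 4] (P (n+3))) = 0 := by
    rw [← K]
    simp only [map_mul, map_pow, map_add, hq]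
  rw [hq, Ideal.Quotient.eq_zero_iff_mem, hI, Ideal.mem_span_singleton] at K2
  have r1 : IsRelPrime (G (n+3)) (lam ℚ ^ D (n+2) + G (n+2) ^ 4) :=
    c4 L (n+3) (n+2) (by omega) (by omega) (fun p hp hL h3 h2 =>
      c2 L hp hL (n+3) hrel (n+1) (by omega) h2 h3)
  have r2 : IsRelPrime (G (n+3)) (lam ℚ ^ D (n+4) + G (n+4) ^ 4) :=
    c4 L (n+3) (n+4) (by omega) (by omega) (fun p hp hL h3 h2 =>
      c2 L hp hL (n+3) hrel (n+2) (by omega) h3 h2)
  exact ((r1.pow_right).mul_right (r2.pow_right)).dvd_of_dvd_mul_left K2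

theorem g3 {P G : ℕ → MP} (hP : PSys P) (L : Lev P G 1) : G 3 = X 2 := by
  have h := L.rel 0 (by norm_num)
  have h0 : G 0 ≠ 0 := by
    intro h0
    have := (tops L 0 (by norm_num)).2.1
    rw [Hh, h0, map_zero] at this
    simp at this
  apply mul_right_cancel₀ h0
  rw [zero_add] at h
  rw [h, W, hP.p0, L.g0, L.g1, L.g2]
  simp only [map_add, aeval_X, Matrix.cons_val_zero, Matrix.cons_val_one, Matrix.cons_val, lam]
  ring

theorem g4 {P G : ℕ → MP} (hP : PSys P) (L : Lev P G 2) : G 4 = X 1 * X 2 - X 0 ^ 3 := by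
  have L1 : Lev P G 1 := ⟨L.sys, L.g0, L.g1, L.g2, fun m hm => L.rel m (by omega)⟩
  have h3 := g3 hP L1
  have h := L.rel 1 (by norm_num)
  have h0 : (X 0 : MP) ≠ 0 := X_ne_zero _
  rw [L.g1] at h
  apply mul_right_cancel₀ h0
  rw [show (1 : ℕ) + 3 = 4 from rfl] at h
  rw [h, W, hP.p1, show (1 : ℕ) + 1 = 2 from rfl, show (1 : ℕ) + 2 = 3 from rfl, L.g2, h3]
  simp only [map_add, aeval_X, Matrix.cons_val_zero, Matrix.cons_val_one, Matrix.cons_val, lam]
  ring

theorem levels (P : ℕ → MP) (hP : PSys P) (N : ℕ) : Lev P (Gf P) N := by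
  induction N with
  | zero => exact ⟨hP.good, by rw [Gf], by rw [Gf], by rw [Gf], fun m hm => by omega⟩
  | succ N L =>
    refine ⟨L.sys, L.g0, L.g1, L.g2, ?_⟩
    intro m hm
    rcases Nat.lt_or_eq_of_le (Nat.lt_succ_iff.mp hm) with h | h
    · exact L.rel m h
    · subst h
      apply Gf_step
      match m, L with
      | 0, L =>
        refine ⟨X 2, ?_⟩
        rw [W, hP.p0, L.g0, L.g1, L.g2]
        simp only [map_add, aeval_X, Matrix.cons_val_zero, Matrix.cons_val_one, Matrix.cons_val,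
          lam]
        ring
      | 1, L =>
        refine ⟨X 1 * X 2 - X 0 ^ 3, ?_⟩
        rw [W, hP.p1, show (1 : ℕ) + 1 = 2 from rfl, show (1 : ℕ) + 2 = 3 from rfl, L.g2, L.g1,
          g3 hP L]
        simp only [map_add, aeval_X, Matrix.cons_val_zero, Matrix.cons_val_one, Matrix.cons_val,
          lam]
        ring
      | 2, L =>
        have L1 : Lev P (Gf P) 1 := ⟨L.sys, L.g0, L.g1, L.g2, fun m hm => L.rel m (by omega)⟩
        refine ⟨(X 1 * X 2 - X 0 ^ 3) ^ 3 * X 2 - 3 * X 0 ^ 2 * (X 1 * X 2 - X 0 ^ 3) ^ 2 * X 1 ^ 3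
          + 3 * X 0 * (X 1 * X 2 - X 0 ^ 3) * X 1 ^ 7 - X 1 ^ 11, ?_⟩
        rw [W, hP.p2, show (2 : ℕ) + 1 = 3 from rfl, show (2 : ℕ) + 2 = 4 from rfl, L.g2,
          g3 hP L1, g4 hP L]
        simp only [map_add, map_pow, aeval_X, Matrix.cons_val_zero, Matrix.cons_val_one,
          Matrix.cons_val, lam]
        ring
      | (n+3), L => exact dvd_step hP n L

end Run7.h483.GG

namespace Run7.h483

open MvPolynomial Run7.h405 Run7.h483.GG

theorem exists_G (P : ℕ → MP) (hP : PSys P) : ∃ G : ℕ → MP, GSys P G := by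
  refine ⟨Gf P, ?_⟩
  have L := levels P hP
  refine ⟨(L 0).g0, (L 0).g1, (L 0).g2, g3 hP (L 1), ?_, ?_, ?_⟩
  · intro n h0
    have := (tops (L n) n (by omega)).2.1
    rw [Hh, h0, map_zero] at this
    simp at this
  · intro n
    exact (L (n+1)).rel n (by omega)
  · intro n
    exact td_le _ _ (tops (L n) n (by omega)).1

end Run7.h483
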